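import Pool.Agent.H504.CF.Rel

/-!
# The left ideal generated by the norms of a set of subgroups
-/

set_option autoImplicit false
set_option linter.unusedSectionVars false

namespace Pool.Agent.H504.RV

open Pool.Agent.H504.CF

open Classical in
/-- the indicator function of the coset `g H`: the element `g N_H = ∑_{h ∈ H} g h` of `ℤ[Γ]` -/
noncomputable def coset {Γ : Type} [Group Γ] (g : Γ) (H : Subgroup Γ) : Γ → ℤ :=
  fun x => if g⁻¹ * x ∈ H then 1 else 0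

/-- The left ideal of `ℤ[Γ]` (functions `Γ → ℤ`) generated by the sums `N_H = ∑_{h ∈ H} h` over the
subgroups `H` in `𝓗`. -/
def J {Γ : Type} [Group Γ] (𝓗 : Set (Subgroup Γ)) : AddSubgroup (Γ → ℤ) :=
  AddSubgroup.closure {f | ∃ (g : Γ) (H : Subgroup Γ), H ∈ 𝓗 ∧ f = coset g H}

open Classical in
/-- the integer `k` as an element of `ℤ[Γ]` -/
noncomputable def const (Γ : Type) [Group Γ] (k : ℤ) : Γ → ℤ := fun x => if x = 1 then k else 0

/-- the groups `Gal(E/K)` for `K` in `𝒦` -/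
def gals {E : Type} [Field E] [NumberField E] (𝒦 : Set (IntermediateField ℚ E)) :
    Set (Subgroup (E ≃ₐ[ℚ] E)) := {H | ∃ K ∈ 𝒦, H = K.fixingSubgroup}

lemma const_mul {Γ : Type} [Group Γ] {𝓗 : Set (Subgroup Γ)} {a : ℤ} (h : const Γ a ∈ J 𝓗) (b : ℤ) :
    const Γ (b * a) ∈ J 𝓗 := by
  have h1 := AddSubgroup.zsmul_mem _ h b
  have h2 : const Γ (b * a) = b • const Γ a := by
    funext x
    rw [Pi.smul_apply, const, const, smul_eq_mul]
    split_ifs <;> simp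
  rwa [h2]

lemma const_one {Γ : Type} [Group Γ] {𝓗 : Set (Subgroup Γ)} {a b : ℕ} (hab : a.Coprime b)
    (ha : const Γ a ∈ J 𝓗) (hb : const Γ b ∈ J 𝓗) : const Γ 1 ∈ J 𝓗 := by
  have h1 : a.gcdA b * (a : ℤ) + a.gcdB b * b = 1 := by
    have := Nat.gcd_eq_gcd_ab a b
    rw [hab.gcd_eq_one, Nat.cast_one] at this
    linarith
  have h2 := add_mem (const_mul ha (a.gcdA b)) (const_mul hb (a.gcdB b))
  convert h2 using 1
  funext x
  rw [Pi.add_apply, const, const, const]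
  split_ifs
  · exact h1.symm
  · simp

/-- a partition gives an element of the ideal -/
lemma const_of_partition {Γ : Type} [Group Γ] [Finite Γ] {H : Subgroup Γ}
    {𝒞 : Finset (Subgroup Γ)} (h𝒞 : IsPartition H 𝒞) {k : ℕ} (hk : 𝒞.card = k + 1)
    {𝓗 : Set (Subgroup Γ)} (h𝓗 : ∀ C : Subgroup Γ, C ≠ ⊥ → C ∈ 𝓗) : const Γ k ∈ J 𝓗 := by
  obtain ⟨ι, _, n, g, H, hH, hrel⟩ := normRelation_of_partition h𝒞 hk
  have h1 : const Γ k = ∑ j, n j • coset (g j) (H j) := by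
    funext x
    rw [Finset.sum_apply]
    refine (hrel x).symm.trans (Finset.sum_congr rfl fun j _ => ?_)
    rw [Pi.smul_apply, coset, smul_eq_mul]
    split_ifs <;> simp
  rw [h1]
  refine sum_mem fun j _ => AddSubgroup.zsmul_mem _ ?_ _
  exact AddSubgroup.subset_closure ⟨g j, H j, h𝓗 _ (hH j), rfl⟩

lemma const_of_pq {Γ : Type} [Group Γ] [Finite Γ] {𝓗 : Set (Subgroup Γ)}
    (h𝓗 : ∀ C : Subgroup Γ, C ≠ ⊥ → C ∈ 𝓗) {q : ℕ} (h : HasPQ Γ q) : const Γ q ∈ J 𝓗 := by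
  obtain ⟨p, hp, hq, hpq, H, hH, hcyc⟩ := h
  obtain ⟨𝒞, h𝒞, hcard⟩ := exists_partition hp hq hpq hH hcyc
  exact const_of_partition h𝒞 hcard h𝓗

lemma const_of_two {Γ : Type} [Group Γ] [Finite Γ] {𝓗 : Set (Subgroup Γ)}
    (h𝓗 : ∀ C : Subgroup Γ, C ≠ ⊥ → C ∈ 𝓗) {q q' : ℕ} (h : HasPQ Γ q) (h' : HasPQ Γ q')
    (hne : q ≠ q') : const Γ 1 ∈ J 𝓗 := by
  have h1 := const_of_pq h𝓗 h
  have h2 := const_of_pq h𝓗 h'
  obtain ⟨p, hp, hq, -⟩ := h
  obtain ⟨p', hp', hq', -⟩ := h'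
  exact const_one ((Nat.coprime_primes hq hq').2 hne) h1 h2

lemma const_of_sym {Γ : Type} [Group Γ] [Finite Γ] {𝓗 : Set (Subgroup Γ)}
    (h𝓗 : ∀ C : Subgroup Γ, C ≠ ⊥ → C ∈ 𝓗) {n : ℕ} (hn : 4 ≤ n)
    (e : Γ ≃* Equiv.Perm (Fin n)) : const Γ 1 ∈ J 𝓗 := by
  obtain ⟨⟨H, 𝒞, h𝒞, hcard⟩, ⟨H', 𝒞', h𝒞', hcard'⟩⟩ := sym_partitions hn e
  exact const_one (a := 2) (b := 3) (by norm_num) (const_of_partition h𝒞 hcard h𝓗)
    (const_of_partition h𝒞' hcard' h𝓗)

/-- the sum over a larger subgroup -/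
lemma coset_mem_of_le {Γ : Type} [Group Γ] [Finite Γ] {𝓗 : Set (Subgroup Γ)} {H C : Subgroup Γ}
    (hC : C ∈ 𝓗) (hCH : C ≤ H) : coset 1 H ∈ J 𝓗 := by
  classical
  have := Fintype.ofFinite Γ
  have h1 : coset 1 H = ∑ q : Γ ⧸ C, if q.out ∈ H then coset q.out C else 0 := by
    funext x
    rw [Finset.sum_apply, Finset.sum_eq_single (x : Γ ⧸ C)]
    · have h2 : ((x : Γ ⧸ C).out)⁻¹ * x ∈ C := by
        rw [← QuotientGroup.eq, QuotientGroup.out_eq']
      have h3 : (x : Γ ⧸ C).out ∈ H ↔ x ∈ H := by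
        have h4 : (x : Γ ⧸ C).out * (((x : Γ ⧸ C).out)⁻¹ * x) ∈ H ↔ (x : Γ ⧸ C).out ∈ H :=
          H.mul_mem_cancel_right (hCH h2)
        rw [mul_inv_cancel_left] at h4
        exact h4.symm
      rw [coset, inv_one, one_mul]
      by_cases hx : x ∈ H
      · rw [if_pos hx, if_pos (h3.2 hx), coset, if_pos h2]
      · rw [if_neg hx, if_neg (fun h => hx (h3.1 h))]
        rfl
    · intro q _ hq
      split_ifs
      · rw [coset, if_neg]
        intro h2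
        apply hq
        rw [← QuotientGroup.eq, QuotientGroup.out_eq'] at h2
        exact h2
      · rfl
    · intro h
      exact absurd (Finset.mem_univ _) h
  rw [h1]
  refine sum_mem fun q _ => ?_
  split_ifs
  · exact AddSubgroup.subset_closure ⟨_, _, hC, rfl⟩
  · exact zero_mem _

section field

variable {E : Type} [Field E] [NumberField E] [IsGalois ℚ E]

/-- products of the conjugates with exponents in the ideal are rational -/
theorem isRat_of_mem {𝒦 : Set (IntermediateField ℚ E)} {r : (E →+* ℂ) → ℂ}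
    (h0 : ∀ τ, r τ ≠ 0) (hr : ∀ K ∈ 𝒦, NormRat K r) {f : (E ≃ₐ[ℚ] E) → ℤ}
    (hf : f ∈ J (gals 𝒦)) :
    IsRat fun τ => ∏ x : E ≃ₐ[ℚ] E, r (cmp τ x) ^ f x := by
  classical
  induction hf using AddSubgroup.closure_induction with
  | mem f h =>
    obtain ⟨g, H, ⟨K, hK, rfl⟩, rfl⟩ := h
    have h1 : NormRat (IntermediateField.fixedField K.fixingSubgroup) r := by
      rw [IsGalois.fixedField_fixingSubgroup]
      exact hr K hK
    obtain ⟨e, he⟩ := normRat_fixedField h1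
    refine ⟨g e, fun τ => ?_⟩
    have h3 : τ (g e) = nm K.fixingSubgroup r (cmp τ g) := (he (cmp τ g)).symm
    rw [h3, nm, ← Equiv.prod_comp (Equiv.mulLeft g⁻¹)]
    refine Finset.prod_congr rfl fun x _ => ?_
    rw [Equiv.coe_mulLeft, ← cmp_mul, mul_inv_cancel_left, coset]
    split_ifs
    · rw [zpow_one]
    · rw [zpow_zero]
  | zero => exact ⟨1, fun τ => by simp⟩
  | add a b _ _ ha hb =>
    obtain ⟨x, hx⟩ := isRat_mul ha hb
    refine ⟨x, fun τ => ?_⟩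
    rw [← hx τ]
    beta_reduce
    rw [← Finset.prod_mul_distrib]
    exact Finset.prod_congr rfl fun y _ => by rw [Pi.add_apply, zpow_add₀ (h0 _)]
  | neg a _ ha =>
    obtain ⟨x, hx⟩ := isRat_zpow ha (-1)
    refine ⟨x, fun τ => ?_⟩
    rw [← hx τ]
    beta_reduce
    rw [← Finset.prod_zpow]
    exact Finset.prod_congr rfl fun y _ => by rw [Pi.neg_apply, ← zpow_mul, mul_neg_one]

theorem isRat_pow {𝒦 : Set (IntermediateField ℚ E)} {r : (E →+* ℂ) → ℂ}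
    (h0 : ∀ τ, r τ ≠ 0) (hr : ∀ K ∈ 𝒦, NormRat K r) {k : ℕ}
    (hk : const (E ≃ₐ[ℚ] E) k ∈ J (gals 𝒦)) : IsRat fun τ => r τ ^ k := by
  classical
  obtain ⟨e, he⟩ := isRat_of_mem h0 hr hk
  refine ⟨e, fun τ => ?_⟩
  rw [← he τ]
  beta_reduce
  rw [Finset.prod_eq_single (1 : E ≃ₐ[ℚ] E)]
  · rw [const, if_pos rfl, zpow_natCast]
    rfl
  · intro x _ hx
    rw [const, if_neg hx, zpow_zero]
  · intro h
    exact absurd (Finset.mem_univ _) h

end field

end Pool.Agent.H504.RV
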