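import Pool.Agent.H504.RV.Art

/-!
# The exact exponent for the subgroups with cyclic quotient (the Artin exponent of an abelian group)
-/

set_option autoImplicit false
set_option linter.unusedSectionVars false

namespace Pool.Agent.H504.RV

open Pool.Agent.H504.CV

section pgroup

variable {P : Type} [CommGroup P] [Finite P]

/-- the characters that are trivial on `H` -/
noncomputable def triv (H : Subgroup P) : Subgroup (P →* ℂˣ) := (MonoidHom.domRestrictHom H ℂˣ).ker

lemma mem_triv {H : Subgroup P} {χ : P →* ℂˣ} : χ ∈ triv H ↔ ∀ h ∈ H, χ h = 1 := by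
  rw [triv, MonoidHom.mem_ker]
  constructor
  · intro h x hx
    exact DFunLike.congr_fun h ⟨x, hx⟩
  · intro h
    ext x
    exact congrArg Units.val (h x x.2)

lemma card_triv (H : Subgroup P) : Nat.card H * Nat.card (triv H) = Nat.card P := by
  rw [triv, CommGroup.card_domRestrictHom_ker, mul_comm]
  exact (Subgroup.card_eq_card_quotient_mul_card_subgroup H).symm

lemma card_dual : Nat.card (P →* ℂˣ) = Nat.card P :=
  CommGroup.card_monoidHom_of_hasEnoughRootsOfUnity P ℂ

/-- evaluation of characters -/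
noncomputable def evl (g : P) : (P →* ℂˣ) →* ℂ := (Units.coeHom ℂ).comp (MonoidHom.eval g)

lemma evl_apply (g : P) (χ : P →* ℂˣ) : evl g χ = (χ g : ℂ) := rfl

/-- the sum of the values over a subgroup of characters -/
lemma sum_sub (Y : Subgroup (P →* ℂˣ)) [Fintype Y] (g : P) :
    ∃ ε : ℤ, ∑ χ : Y, evl g χ.1 = ε * Nat.card Y := by
  classical
  by_cases h : ((evl g).comp Y.subtype : Y →* ℂ) = 1
  · refine ⟨1, ?_⟩
    have h1 : ∀ χ : Y, evl g χ.1 = 1 := fun χ => DFunLike.congr_fun h χ
    rw [Finset.sum_congr rfl fun χ _ => h1 χ, Finset.sum_const, Finset.card_univ,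
      Nat.card_eq_fintype_card]
    simp
  · exact ⟨0, by
      have h1 : ∑ χ : Y, evl g χ.1 = 0 := sum_hom_units_eq_zero _ h
      rw [h1]
      simp⟩

variable {p n : ℕ} (hp : p.Prime) (hP : Nat.card P = p ^ n)

include hp hP

/-- the sum over the characters of a cyclic quotient -/
lemma sum_triv {H : Subgroup P} (hH : IsCyclic (P ⧸ H)) {χ₀ : P →* ℂˣ} (h0 : orderOf χ₀ = p)
    (b g : P) [Fintype (triv H)] :
    ∃ ε : ℤ, ∑ χ : triv H, uu χ₀ (evl b) χ.1 * evl g χ.1 = ε * Nat.card (triv H) := by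
  classical
  have hX : Nat.card (P →* ℂˣ) = p ^ n := card_dual.trans hP
  by_cases hmem : χ₀ ∈ triv H
  · obtain ⟨q, hq⟩ := hH.exists_generator
    obtain ⟨g₀, rfl⟩ := QuotientGroup.mk_surjective q
    have hinj : ∀ α ∈ triv H, ∀ β ∈ triv H, evl g₀ α = evl g₀ β → α = β := by
      intro α hα β hβ hg
      have hg' : α g₀ = β g₀ := Units.ext hg
      ext x
      obtain ⟨k, hk⟩ := Subgroup.mem_zpowers_iff.1 (hq (QuotientGroup.mk x))
      have h2 : (g₀ ^ k)⁻¹ * x ∈ H := by
        rw [← QuotientGroup.eq, ← hk]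
        rfl
      have h3 : ∀ γ ∈ triv H, γ x = (γ g₀) ^ k := by
        intro γ hγ
        have h4 := mem_triv.1 hγ _ h2
        rw [map_mul, map_inv, map_zpow, inv_mul_eq_one] at h4
        exact h4.symm
      rw [h3 α hα, h3 β hβ, hg']
    obtain ⟨ε, hε⟩ := sum_sub (triv H) (b * g)
    refine ⟨ε, ?_⟩
    rw [← hε]
    refine Finset.sum_congr rfl fun χ _ => ?_
    have h1 : uu χ₀ (evl b) χ.1 = evl b χ.1 := by
      rw [uu]
      split_ifs with h2
      · rfl
      · have h3 : χ.1 = 1 := by
          by_contra h4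
          exact h2 (mem_zpowers_of hp hX (evl g₀) hinj h0 hmem χ.2 h4)
        rw [h3, map_one]
    rw [h1, evl_apply, evl_apply, evl_apply, map_mul, Units.val_mul]
  · obtain ⟨ε, hε⟩ := sum_sub (triv H) g
    refine ⟨ε, ?_⟩
    rw [← hε]
    refine Finset.sum_congr rfl fun χ _ => ?_
    have h1 : uu χ₀ (evl b) χ.1 = 1 := by
      rw [uu, if_neg]
      intro h2
      exact hmem ((Subgroup.zpowers_le.2 χ.2) h2)
    rw [h1, one_mul]

/-- the pairing with the cosets -/
lemma sum_coset [Fintype P] [Fintype (P →* ℂˣ)] {H : Subgroup P} (hH : IsCyclic (P ⧸ H))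
    {χ₀ : P →* ℂˣ} (h0 : orderOf χ₀ = p) (b g : P) :
    ∃ ε : ℤ, ∑ χ : P →* ℂˣ, uu χ₀ (evl b) χ * ∑ x : P, (coset g H x : ℂ) * evl x χ =
      ε * (p ^ n : ℕ) := by
  classical
  obtain ⟨ε, hε⟩ := sum_triv hp hP hH h0 b g
  refine ⟨ε, ?_⟩
  have h1 : ∀ χ : P →* ℂˣ, ∑ x : P, (coset g H x : ℂ) * evl x χ =
      if χ ∈ triv H then evl g χ * Nat.card H else 0 := by
    intro χ
    rw [← Equiv.sum_comp (Equiv.mulLeft g)]
    have h3 : ∀ x : P, ((coset g H ((Equiv.mulLeft g) x) : ℤ) : ℂ) *
        evl ((Equiv.mulLeft g) x) χ = evl g χ * (if x ∈ H then evl x χ else 0) := by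
      intro x
      rw [Equiv.coe_mulLeft, coset, inv_mul_cancel_left, evl_apply, map_mul, Units.val_mul,
        evl_apply, evl_apply]
      split_ifs <;> simp
    rw [Finset.sum_congr rfl fun x _ => h3 x, ← Finset.mul_sum, ← Finset.sum_filter]
    have h4 : ∑ x ∈ Finset.univ.filter (fun x => x ∈ H), evl x χ = ∑ x : H, evl x.1 χ :=
      Finset.sum_subtype _ (fun x => by rw [Finset.mem_filter]; simp) _
    rw [h4]
    split_ifs with h5
    · have h6 : ∀ x : H, evl x.1 χ = 1 := fun x => by
        rw [evl_apply, mem_triv.1 h5 x.1 x.2, Units.val_one]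
      rw [Finset.sum_congr rfl fun x _ => h6 x, Finset.sum_const, Finset.card_univ,
        Nat.card_eq_fintype_card]
      simp
    · have h6 : ((Units.coeHom ℂ).comp (χ.comp H.subtype) : H →* ℂ) ≠ 1 := by
        intro h7
        apply h5
        rw [mem_triv]
        intro y hy
        have h8 : ((χ y : ℂˣ) : ℂ) = 1 := DFunLike.congr_fun h7 (⟨y, hy⟩ : H)
        exact Units.ext h8
      have h7 : ∑ x : H, evl x.1 χ = 0 := sum_hom_units_eq_zero _ h6
      rw [h7, mul_zero]
  have h2 : ∑ χ : P →* ℂˣ, uu χ₀ (evl b) χ * ∑ x : P, (coset g H x : ℂ) * evl x χ =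
      ∑ χ : P →* ℂˣ, if χ ∈ triv H then uu χ₀ (evl b) χ * evl g χ * Nat.card H else 0 := by
    refine Finset.sum_congr rfl fun χ _ => ?_
    rw [h1 χ]
    split_ifs
    · ring
    · rw [mul_zero]
  rw [h2, ← Finset.sum_filter]
  have h3 : ∑ χ ∈ Finset.univ.filter (fun χ => χ ∈ triv H),
      uu χ₀ (evl b) χ * evl g χ * (Nat.card H : ℂ) =
      ∑ χ : triv H, uu χ₀ (evl b) χ.1 * evl g χ.1 * (Nat.card H : ℂ) :=
    Finset.sum_subtype _ (fun x => by rw [Finset.mem_filter]; simp) _
  rw [h3, ← Finset.sum_mul, hε, mul_assoc]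
  congr 1
  rw [← hP, ← card_triv H]
  push_cast
  ring

/-- the exact exponent for noncyclic `p`-groups -/
theorem dvd_of_mem_pgroup (hn : 2 ≤ n) (hT : p < Nat.card (tor P p)) {k : ℤ}
    (hk : const P k ∈ J {H : Subgroup P | IsCyclic (P ⧸ H)}) : (p : ℤ) ^ (n - 1) ∣ k := by
  classical
  have := Fintype.ofFinite P
  have : Fintype (P →* ℂˣ) := Fintype.ofFinite _
  have : Fact p.Prime := ⟨hp⟩
  have hX : Nat.card (P →* ℂˣ) = p ^ n := card_dual.trans hP
  obtain ⟨χ₀, h0⟩ := exists_prime_orderOf_dvd_card' (G := P →* ℂˣ) p (by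
    rw [hX]
    exact dvd_pow_self p (by omega))
  obtain ⟨b, hb⟩ : ∃ b : P, χ₀ b ≠ 1 := by
    by_contra h
    push Not at h
    have h1 : χ₀ = 1 := by
      ext x
      rw [h x]
      rfl
    rw [h1, orderOf_one] at h0
    exact hp.one_lt.ne h0
  have he : evl b χ₀ ≠ 1 := fun h => hb (Units.ext h)
  have hT' : p < Nat.card (tor (P →* ℂˣ) p) := by
    obtain ⟨e⟩ := CommGroup.monoidHom_mulEquiv_of_hasEnoughRootsOfUnity P ℂ
    refine lt_of_lt_of_eq hT (Nat.card_congr ⟨fun x => ⟨e.symm x.1, ?_⟩, fun x => ⟨e x.1, ?_⟩,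
      ?_, ?_⟩)
    · change (e.symm x.1) ^ p = 1
      rw [← map_pow, mem_tor.1 x.2, map_one]
    · change (e x.1) ^ p = 1
      have h1 : (x.1 : P →* ℂˣ) ^ p = 1 := x.2
      exact (map_pow e x.1 p).symm.trans ((congrArg e h1).trans (map_one e))
    · intro x
      exact Subtype.ext (e.apply_symm_apply _)
    · intro x
      exact Subtype.ext (e.symm_apply_apply _)
  obtain ⟨c, hc⟩ := sum_uu hp hX hn hT' h0 he
  have key : ∀ f ∈ J {H : Subgroup P | IsCyclic (P ⧸ H)}, ∃ ε : ℤ,
      ∑ χ : P →* ℂˣ, uu χ₀ (evl b) χ * ∑ x : P, (f x : ℂ) * evl x χ = ε * (p ^ n : ℕ) := by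
    intro f hf
    induction hf using AddSubgroup.closure_induction with
    | mem f h =>
      obtain ⟨g, H, hH, rfl⟩ := h
      exact sum_coset hp hP hH h0 b g
    | zero => exact ⟨0, by simp⟩
    | add f f' _ _ h h' =>
      obtain ⟨ε, h⟩ := h
      obtain ⟨ε', h'⟩ := h'
      refine ⟨ε + ε', ?_⟩
      push_cast at h h' ⊢
      rw [add_mul, ← h, ← h', ← Finset.sum_add_distrib]
      refine Finset.sum_congr rfl fun χ _ => ?_
      rw [← mul_add, ← Finset.sum_add_distrib]
      congr 1
      refine Finset.sum_congr rfl fun x _ => ?_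
      rw [Pi.add_apply]
      push_cast
      ring
    | neg f _ h =>
      obtain ⟨ε, h⟩ := h
      refine ⟨-ε, ?_⟩
      push_cast at h ⊢
      rw [neg_mul, ← h, ← Finset.sum_neg_distrib]
      refine Finset.sum_congr rfl fun χ _ => ?_
      rw [← mul_neg, ← Finset.sum_neg_distrib]
      congr 1
      refine Finset.sum_congr rfl fun x _ => ?_
      rw [Pi.neg_apply]
      push_cast
      ring
  obtain ⟨ε, hε⟩ := key _ hk
  have h1 : ∀ χ : P →* ℂˣ, ∑ x : P, (const P k x : ℂ) * evl x χ = k := by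
    intro χ
    rw [Finset.sum_eq_single (1 : P)]
    · rw [const, if_pos rfl, evl_apply, map_one, Units.val_one, mul_one]
    · intro x _ hx
      rw [const, if_neg hx]
      simp
    · intro h
      exact absurd (Finset.mem_univ _) h
  rw [Finset.sum_congr rfl fun χ _ => by rw [h1 χ], ← Finset.sum_mul, hc] at hε
  have h2 : ((p : ℤ) * (p * c - 1)) * k = ε * (p ^ n : ℕ) := by exact_mod_cast hε
  obtain ⟨m, rfl⟩ := Nat.exists_eq_add_of_le hn
  have h3 : (p * c - 1) * k = ε * (p : ℤ) ^ (1 + m) := by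
    have hp0 : (p : ℤ) ≠ 0 := by exact_mod_cast hp.ne_zero
    apply mul_left_cancel₀ hp0
    push_cast at h2
    rw [← mul_assoc, h2]
    ring
  have h4 : IsCoprime ((p : ℤ) ^ (1 + m)) (p * c - 1) :=
    IsCoprime.pow_left ⟨c, -1, by ring⟩
  have h5 : 2 + m - 1 = 1 + m := by omega
  rw [h5]
  exact h4.dvd_of_dvd_mul_left ⟨ε, by rw [h3]; ring⟩

end pgroup

section general

variable {B : Type} [CommGroup B] [Finite B]

/-- restriction to a subgroup -/
lemma restrict_mem (P : Subgroup B) {f : B → ℤ}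
    (hf : f ∈ J {H : Subgroup B | IsCyclic (B ⧸ H)}) :
    (fun x : P => f x) ∈ J {H : Subgroup P | IsCyclic (P ⧸ H)} := by
  classical
  induction hf using AddSubgroup.closure_induction with
  | mem f h =>
    obtain ⟨g, H, hH, rfl⟩ := h
    by_cases hg : ∃ x : P, coset g H x ≠ 0
    · obtain ⟨y, hy⟩ := hg
      have hy' : g⁻¹ * y ∈ H := by
        by_contra h
        exact hy (if_neg h)
      refine AddSubgroup.subset_closure ⟨y, H.subgroupOf P, ?_, ?_⟩
      · have hH' : IsCyclic (B ⧸ H) := hH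
        change IsCyclic (P ⧸ H.subgroupOf P)
        let φ : P ⧸ H.subgroupOf P →* B ⧸ H := QuotientGroup.map (H.subgroupOf P) H P.subtype
          (fun x hx => hx)
        refine isCyclic_of_injective φ ((injective_iff_map_eq_one φ).2 fun q hq => ?_)
        obtain ⟨x, rfl⟩ := QuotientGroup.mk_surjective q
        have h1 : (QuotientGroup.mk (x : B) : B ⧸ H) = 1 := hq
        exact (QuotientGroup.eq_one_iff x).2 ((QuotientGroup.eq_one_iff (N := H) (x : B)).1 h1)
      · funext x
        rw [coset, coset]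
        have h1 : g⁻¹ * (x : B) ∈ H ↔ y⁻¹ * x ∈ H.subgroupOf P := by
          rw [Subgroup.mem_subgroupOf]
          have h2 : g⁻¹ * (x : B) = (g⁻¹ * y) * ((y⁻¹ * x : P) : B) := by
            push_cast
            group
          rw [h2]
          exact H.mul_mem_cancel_left hy'
        simp only [h1]
    · push Not at hg
      have h1 : (fun x : P => coset g H x) = 0 := funext hg
      rw [h1]
      exact zero_mem _
  | zero => exact zero_mem _
  | add a b _ _ ha hb => exact add_mem ha hb
  | neg a _ ha => exact neg_mem ha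

/-- the exact exponent -/
theorem const_mem_iff (k : ℤ) :
    const B k ∈ J {H : Subgroup B | IsCyclic (B ⧸ H)} ↔ (cexp B : ℤ) ∣ k := by
  classical
  constructor
  · intro hk
    rw [cexp_eq B (Finset.Subset.refl _), Nat.cast_prod]
    refine Finset.prod_dvd_of_coprime (fun p hp q hq hpq => ?_) fun p hp => ?_
    · have hp' := (Nat.mem_primeFactors.1 (Finset.mem_coe.1 hp)).1
      have hq' := (Nat.mem_primeFactors.1 (Finset.mem_coe.1 hq)).1
      have h1 : p.Coprime q := (Nat.coprime_primes hp' hq').2 hpq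
      change IsCoprime ((fac B p : ℕ) : ℤ) ((fac B q : ℕ) : ℤ)
      rw [Nat.isCoprime_iff_coprime, fac, fac]
      split_ifs
      · exact Nat.Coprime.pow _ _ h1
      · exact Nat.coprime_one_right _
      · exact Nat.coprime_one_left _
      · exact Nat.coprime_one_left _
    · have hp' := (Nat.mem_primeFactors.1 hp).1
      have : Fact p.Prime := ⟨hp'⟩
      have hB0 : Nat.card B ≠ 0 := Nat.card_pos.ne'
      rw [fac]
      split_ifs with h
      · have htor : IsPGroup p (tor B p) := by
          intro x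
          refine ⟨1, ?_⟩
          rw [pow_one]
          exact Subtype.ext x.2
        obtain ⟨P, hP⟩ := htor.exists_le_sylow
        have hcard : Nat.card (P : Subgroup B) = p ^ (Nat.card B).factorization p :=
          P.card_eq_multiplicity
        have hn : 2 ≤ (Nat.card B).factorization p := by
          rw [← hp'.pow_dvd_iff_le_factorization hB0, pow_two]
          exact (sq_dvd_tor hp' h).trans (Subgroup.card_subgroup_dvd_card _)
        have hT : p < Nat.card (tor (P : Subgroup B) p) := by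
          refine lt_of_lt_of_le h (Nat.card_le_card_of_injective
            (fun x : tor B p => (⟨⟨x.1, hP x.2⟩, Subtype.ext x.2⟩ : tor (P : Subgroup B) p)) ?_)
          intro x y hxy
          apply Subtype.ext
          exact congrArg (fun z : tor (P : Subgroup B) p => ((z : (P : Subgroup B)) : B)) hxy
        have h1 := restrict_mem (P : Subgroup B) hk
        have h2 : (fun x : (P : Subgroup B) => const B k x) = const (P : Subgroup B) k := by
          funext x
          rw [const, const]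
          by_cases hx : x = 1
          · rw [if_pos hx, if_pos (OneMemClass.coe_eq_one.2 hx)]
          · rw [if_neg hx, if_neg (fun h => hx (OneMemClass.coe_eq_one.1 h))]
        rw [h2] at h1
        have h3 := dvd_of_mem_pgroup hp' hcard hn hT h1
        push_cast
        exact h3
      · rw [Nat.cast_one]
        exact one_dvd _
  · rintro ⟨t, rfl⟩
    have h1 := CV.main (Nat.card B) B rfl
    have h2 : ∀ f ∈ S B, f ∈ J {H : Subgroup B | IsCyclic (B ⧸ H)} := by
      intro f hf
      refine (AddSubgroup.closure_le (K := J {H : Subgroup B | IsCyclic (B ⧸ H)})).2 ?_ hf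
      rintro _ ⟨H, hH, rfl⟩
      refine AddSubgroup.subset_closure ⟨1, H, hH, ?_⟩
      funext x
      rw [ind, coset, inv_one, one_mul]
    have h3 := h2 _ h1
    have h4 : (cexp B : ℤ) • ind (⊥ : Subgroup B) = const B (cexp B) := by
      funext x
      rw [const, Pi.smul_apply, ind, smul_eq_mul]
      simp only [Subgroup.mem_bot]
      split_ifs <;> simp
    rw [h4] at h3
    rw [mul_comm]
    exact const_mul h3 t

end general

end Pool.Agent.H504.RV
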