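import Pool.Agent.H504.RV.Cyc

/-!
# The exact exponent for the subgroups with cyclic quotient: a sum over a finite abelian `p`-group
-/

set_option autoImplicit false
set_option linter.unusedSectionVars false

namespace Pool.Agent.H504.RV

open Pool.Agent.H504.CV

section

variable {X : Type} [CommGroup X] [Finite X]

open Classical in
/-- `e χ` if `χ₀` is a power of `χ`, and `1` otherwise -/
noncomputable def uu (χ₀ : X) (e : X →* ℂ) (χ : X) : ℂ :=
  if χ₀ ∈ Subgroup.zpowers χ then e χ else 1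

/-- a set that is stable under a subgroup has cardinality divisible by its order -/
lemma card_dvd_of_stable (W : Subgroup X) (T : Set X)
    (hT : ∀ χ ∈ T, ∀ η ∈ W, χ * η ∈ T) : Nat.card W ∣ T.ncard := by
  classical
  have : Fintype X := Fintype.ofFinite _
  have hiff : ∀ χ : X, ∀ η ∈ W, (χ * η ∈ T ↔ χ ∈ T) := fun χ η hη =>
    ⟨fun h => by simpa using hT _ h _ (W.inv_mem hη), fun h => hT χ h η hη⟩
  have h1 : T.ncard = ∑ χ : X, if χ ∈ T then 1 else 0 := by
    rw [← Finset.card_filter, ← Set.ncard_coe_finset]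
    congr 1
    ext χ
    simp
  rw [h1, ← Finset.sum_fiberwise Finset.univ (fun χ : X => (χ : X ⧸ W))]
  refine Finset.dvd_sum fun q _ => ?_
  have h2 : ∑ χ ∈ Finset.univ.filter (fun χ : X => (χ : X ⧸ W) = q),
      (if χ ∈ T then 1 else 0) =
      ∑ χ ∈ Finset.univ.filter (fun χ : X => (χ : X ⧸ W) = q),
      (if q.out ∈ T then 1 else 0) := by
    refine Finset.sum_congr rfl fun χ hχ => ?_
    have h3 : (χ : X ⧸ W) = q := (Finset.mem_filter.1 hχ).2
    have h4 : q.out⁻¹ * χ ∈ W := by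
      rw [← QuotientGroup.eq, QuotientGroup.out_eq', h3]
    have h5 := hiff q.out _ h4
    rw [mul_inv_cancel_left] at h5
    simp only [h5]
  rw [h2, Finset.sum_const, smul_eq_mul]
  refine Dvd.dvd.mul_right ?_ _
  have h3 : (Finset.univ.filter (fun χ : X => (χ : X ⧸ W) = q)).card = Nat.card W := by
    rw [← Fintype.card_subtype, ← Nat.card_eq_fintype_card]
    refine Nat.card_congr ⟨fun χ => ⟨q.out⁻¹ * χ.1, ?_⟩, fun w => ⟨q.out * w.1, ?_⟩, ?_, ?_⟩
    · rw [← QuotientGroup.eq, QuotientGroup.out_eq', χ.2]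
    · have h4 : ((q.out * w.1 : X) : X ⧸ W) = (q.out : X ⧸ W) := by
        rw [eq_comm, QuotientGroup.eq, inv_mul_cancel_left]
        exact w.2
      rw [h4, QuotientGroup.out_eq']
    · intro χ
      apply Subtype.ext
      change q.out * (q.out⁻¹ * χ.1) = χ.1
      exact mul_inv_cancel_left _ _
    · intro w
      apply Subtype.ext
      change q.out⁻¹ * (q.out * w.1) = w.1
      exact inv_mul_cancel_left _ _
  rw [h3]

variable {p n : ℕ} (hp : p.Prime) (hX : Nat.card X = p ^ n)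

include hp hX

lemma order_pow (χ : X) : ∃ j, orderOf χ = p ^ j := by
  have h1 : orderOf χ ∣ p ^ n := hX ▸ orderOf_dvd_natCard χ
  obtain ⟨j, -, h2⟩ := (Nat.dvd_prime_pow hp).1 h1
  exact ⟨j, h2⟩

/-- subgroups on which some `e` is injective are cyclic -/
lemma mem_zpowers_of {Y : Subgroup X} (e : X →* ℂ) (he : ∀ α ∈ Y, ∀ β ∈ Y, e α = e β → α = β)
    {χ₀ χ : X} (h0 : orderOf χ₀ = p) (hχ₀ : χ₀ ∈ Y) (hχ : χ ∈ Y) (h1 : χ ≠ 1) :
    χ₀ ∈ Subgroup.zpowers χ := by
  obtain ⟨j, hj⟩ := order_pow hp hX χ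
  have hj0 : j ≠ 0 := by
    rintro rfl
    rw [pow_zero, orderOf_eq_one_iff] at hj
    exact h1 hj
  have hprim : IsPrimitiveRoot (e χ) (orderOf χ) := by
    refine ⟨by rw [← map_pow, pow_orderOf_eq_one, map_one], fun l hl => ?_⟩
    rw [orderOf_dvd_iff_pow_eq_one]
    refine he _ (Y.pow_mem hχ l) _ Y.one_mem ?_
    rw [map_pow, hl, map_one]
  have hpow : (e χ₀) ^ (orderOf χ) = 1 := by
    have h2 : χ₀ ^ orderOf χ = 1 := by
      rw [← orderOf_dvd_iff_pow_eq_one, h0, hj]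
      exact dvd_pow_self p hj0
    rw [← map_pow, h2, map_one]
  have : NeZero (orderOf χ) := ⟨by rw [hj]; exact pow_ne_zero _ hp.ne_zero⟩
  obtain ⟨i, -, hi⟩ := hprim.eq_pow_of_pow_eq_one hpow
  refine ⟨i, ?_⟩
  change χ ^ (i : ℤ) = χ₀
  rw [zpow_natCast]
  refine he _ (Y.pow_mem hχ _) _ hχ₀ ?_
  rw [map_pow]
  exact hi

/-- the sum of `uu` -/
lemma sum_uu (hn : 2 ≤ n) (hT : p < Nat.card (tor X p)) {χ₀ : X}
    (h0 : orderOf χ₀ = p) {e : X →* ℂ} (he : e χ₀ ≠ 1) [Fintype X] :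
    ∃ c : ℤ, ∑ χ : X, uu χ₀ e χ = (((p : ℤ) * (p * c - 1) : ℤ) : ℂ) := by
  classical
  set T : Set X := {χ | χ₀ ∈ Subgroup.zpowers χ ∧ χ ∉ Subgroup.zpowers χ₀} with hTdef
  -- elements of `T`
  have hexp : ∀ χ ∈ T, ∃ i : ℤ, χ ^ i = χ₀ ∧ (p : ℤ) ∣ i := by
    rintro χ ⟨h1, h2⟩
    obtain ⟨i, hi⟩ := Subgroup.mem_zpowers_iff.1 h1
    refine ⟨i, hi, ?_⟩
    obtain ⟨j, hj⟩ := order_pow hp hX χ
    by_contra hpi
    have h3 : (orderOf χ : ℤ) ∣ i * p := by
      rw [orderOf_dvd_iff_zpow_eq_one, zpow_mul, hi, zpow_natCast, ← h0, pow_orderOf_eq_one]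
    have h4 : IsCoprime (orderOf χ : ℤ) i := by
      rw [hj]
      push_cast
      exact IsCoprime.pow_left ((Nat.prime_iff_prime_int.1 hp).coprime_iff_not_dvd.2 hpi)
    have h5 : (orderOf χ : ℤ) ∣ p := h4.dvd_of_dvd_mul_left h3
    have h6 : orderOf χ ∣ p := by exact_mod_cast h5
    have h7 : Nat.card (Subgroup.zpowers χ) ≤ Nat.card (Subgroup.zpowers χ₀) := by
      rw [Nat.card_zpowers, Nat.card_zpowers, h0]
      exact Nat.le_of_dvd hp.pos h6
    have h8 := Subgroup.eq_of_le_of_card_ge (Subgroup.zpowers_le.2 h1) h7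
    exact h2 (h8 ▸ Subgroup.mem_zpowers χ)
  have hpow : ∀ (α : X) (t : ℤ), α ^ p = 1 → α ^ ((p : ℤ) * t) = 1 := fun α t h => by
    rw [zpow_mul, zpow_natCast, h, one_zpow]
  have hχ₀ : χ₀ ^ p = 1 := by rw [← h0, pow_orderOf_eq_one]
  have hstab : ∀ χ ∈ T, ∀ η ∈ tor X p, χ * η ∈ T := by
    intro χ hχ η hη
    obtain ⟨i, hi, t, rfl⟩ := hexp χ hχ
    have h1 : (χ * η) ^ ((p : ℤ) * t) = χ₀ := by
      rw [mul_zpow, hi, hpow η t (mem_tor.1 hη), mul_one]
    have h2 : χ₀ ∈ Subgroup.zpowers (χ * η) := ⟨_, h1⟩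
    refine ⟨h2, fun h3 => ?_⟩
    obtain ⟨m, hm⟩ := Subgroup.mem_zpowers_iff.1 h3
    have h4 : (χ * η) ^ ((p : ℤ) * t) = 1 := by
      refine hpow _ t ?_
      rw [← hm, ← zpow_natCast, ← zpow_mul, mul_comm]
      exact hpow _ m hχ₀
    rw [h1] at h4
    rw [h4, orderOf_one] at h0
    exact hp.one_lt.ne h0
  -- the cardinality of `T`
  obtain ⟨c, hc⟩ : p * p ∣ T.ncard := (sq_dvd_tor hp hT).trans (card_dvd_of_stable _ T hstab)
  -- the values of `uu`
  have hval : ∀ χ : X, uu χ₀ e χ = (if χ ∈ Subgroup.zpowers χ₀ then e χ else 0) +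
      (if χ ∈ T then e χ else 0) + (1 - (if χ ∈ Subgroup.zpowers χ₀ then 1 else 0) -
      (if χ ∈ T then 1 else 0)) := by
    intro χ
    rw [uu]
    by_cases h1 : χ₀ ∈ Subgroup.zpowers χ
    · by_cases h2 : χ ∈ Subgroup.zpowers χ₀
      · rw [if_pos h1, if_pos h2, if_pos h2, if_neg (fun h => h.2 h2), if_neg (fun h => h.2 h2)]
        ring
      · have h3 : χ ∈ T := ⟨h1, h2⟩
        rw [if_pos h1, if_neg h2, if_neg h2, if_pos h3, if_pos h3]
        ring
    · by_cases h2 : χ ∈ Subgroup.zpowers χ₀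
      · have h3 : χ = 1 := by
          by_contra h4
          apply h1
          have h5 : orderOf χ ∣ p := by
            rw [orderOf_dvd_iff_pow_eq_one]
            obtain ⟨m, rfl⟩ := Subgroup.mem_zpowers_iff.1 h2
            rw [← zpow_natCast, ← zpow_mul, mul_comm]
            exact hpow _ m hχ₀
          have h6 : orderOf χ = p := ((Nat.dvd_prime hp).1 h5).resolve_left fun h =>
            h4 (orderOf_eq_one_iff.1 h)
          have h7 := Subgroup.eq_of_le_of_card_ge (Subgroup.zpowers_le.2 h2)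
            (by rw [Nat.card_zpowers, Nat.card_zpowers, h0, h6])
          rw [h7]
          exact Subgroup.mem_zpowers χ₀
        rw [if_neg h1, if_pos h2, if_pos h2, if_neg (fun h => h.2 h2), if_neg (fun h => h.2 h2),
          h3, map_one]
        ring
      · rw [if_neg h1, if_neg h2, if_neg h2, if_neg (fun h => h1 h.1), if_neg (fun h => h1 h.1)]
        ring
  have hsum1 : ∑ χ : X, (if χ ∈ Subgroup.zpowers χ₀ then e χ else 0) = 0 := by
    rw [← Finset.sum_filter]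
    have h1 : (e.comp (Subgroup.zpowers χ₀).subtype : Subgroup.zpowers χ₀ →* ℂ) ≠ 1 := fun h =>
      he (DFunLike.congr_fun h ⟨χ₀, Subgroup.mem_zpowers χ₀⟩)
    have h2 : ∑ x : Subgroup.zpowers χ₀, e x.1 = 0 := sum_hom_units_eq_zero _ h1
    rw [← h2]
    exact Finset.sum_subtype _ (fun x => by rw [Finset.mem_filter]; simp) _
  have hsum2 : ∑ χ : X, (if χ ∈ T then e χ else 0) = 0 := by
    have h1 : ∑ χ : X, (if χ ∈ T then e χ else 0) =
        e χ₀ * ∑ χ : X, (if χ ∈ T then e χ else 0) := by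
      rw [Finset.mul_sum]
      conv_lhs => rw [← Equiv.sum_comp (Equiv.mulRight χ₀)]
      refine Finset.sum_congr rfl fun χ _ => ?_
      rw [Equiv.coe_mulRight]
      have h2 : χ * χ₀ ∈ T ↔ χ ∈ T := by
        refine ⟨fun h => ?_, fun h => hstab χ h χ₀ (mem_tor.2 hχ₀)⟩
        have h3 := hstab _ h χ₀⁻¹ ((tor X p).inv_mem (mem_tor.2 hχ₀))
        rwa [mul_inv_cancel_right] at h3
      simp only [h2, map_mul]
      split_ifs
      · ring
      · rw [mul_zero]
    have h3 : (1 - e χ₀) * ∑ χ : X, (if χ ∈ T then e χ else 0) = 0 := by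
      rw [sub_mul, one_mul, ← h1, sub_self]
    exact (mul_eq_zero.1 h3).resolve_left (sub_ne_zero.2 he.symm)
  have hcard1 : ∑ χ : X, (if χ ∈ Subgroup.zpowers χ₀ then (1 : ℂ) else 0) = p := by
    rw [← Finset.sum_filter, Finset.sum_const, nsmul_eq_mul, mul_one]
    have h1 : (Finset.univ.filter (fun χ : X => χ ∈ Subgroup.zpowers χ₀)).card = p := by
      rw [← Fintype.card_subtype, ← Nat.card_eq_fintype_card]
      exact (Nat.card_zpowers χ₀).trans h0
    rw [h1]
  have hcard2 : ∑ χ : X, (if χ ∈ T then (1 : ℂ) else 0) = T.ncard := by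
    rw [← Finset.sum_filter, Finset.sum_const, nsmul_eq_mul, mul_one]
    have h1 : (Finset.univ.filter (fun χ : X => χ ∈ T)).card = T.ncard := by
      rw [← Set.ncard_coe_finset]
      congr 1
      ext χ
      simp
    rw [h1]
  obtain ⟨n', rfl⟩ := Nat.exists_eq_add_of_le hn
  refine ⟨p ^ n' - c, ?_⟩
  rw [Finset.sum_congr rfl fun χ _ => hval χ, Finset.sum_add_distrib, Finset.sum_add_distrib,
    Finset.sum_sub_distrib, Finset.sum_sub_distrib, hsum1, hsum2, hcard1, hcard2, hc,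
    Finset.sum_const, Finset.card_univ, ← Nat.card_eq_fintype_card, hX]
  push_cast
  ring

end

end Pool.Agent.H504.RV
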