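import Pool.Agent.H504.CV.Rel
import Pool.Agent.H504.RV.Rel

/-!
# Cyclic subfields, and the exactness of the criterion
-/

set_option autoImplicit false
set_option linter.unusedSectionVars false

namespace Pool.Agent.H504.RV

open Pool.Agent.H504.CF

section gen

variable {k Ω : Type} [Field k] [Field Ω] [Algebra k Ω]

/-- `C` is a cyclic extension of `k` -/
def IsCyc (C : IntermediateField k Ω) : Prop := IsGalois k C ∧ IsCyclic (C ≃ₐ[k] C)

lemma isCyc_fixedField [FiniteDimensional k Ω] [IsGalois k Ω] (B : Subgroup (Ω ≃ₐ[k] Ω))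
    [B.Normal] (hB : IsCyclic ((Ω ≃ₐ[k] Ω) ⧸ B)) : IsCyc (IntermediateField.fixedField B) :=
  ⟨IsGalois.of_fixedField_normal_subgroup B,
    isCyclic_of_surjective (IsGalois.normalAutEquivQuotient B)
      (IsGalois.normalAutEquivQuotient B).surjective⟩

lemma exists_faithful (A : Type) [Group A] [Finite A] [IsCyclic A] :
    ∃ ψ : A →* ℂˣ, Function.Injective ψ := by
  have : NeZero (Nat.card A) := ⟨Nat.card_pos.ne'⟩
  have h1 : Nat.card A = Nat.card (rootsOfUnity (Nat.card A) ℂ) := by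
    have h0 := Complex.card_rootsOfUnity (Nat.card A)
    exact h0.symm
  let e : A ≃* rootsOfUnity (Nat.card A) ℂ := mulEquivOfCyclicCardEq h1
  exact ⟨(rootsOfUnity (Nat.card A) ℂ).subtype.comp e.toMonoidHom,
    Subtype.val_injective.comp e.injective⟩

lemma IsCyc.exists_char [FiniteDimensional k Ω] {C : IntermediateField k Ω} (hC : IsCyc C) :
    ∃ χ : (Ω ≃ₐ[k] Ω) →* ℂ, ∀ x, χ x = 1 → x ∈ C.fixingSubgroup := by
  obtain ⟨h1, h2⟩ := hC
  obtain ⟨ψ, hψ⟩ := exists_faithful (C ≃ₐ[k] C)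
  refine ⟨(Units.coeHom ℂ).comp (ψ.comp (AlgEquiv.restrictNormalHom C)), fun x hx => ?_⟩
  have h4 : ψ (AlgEquiv.restrictNormalHom C x) = 1 := Units.ext hx
  rw [← IntermediateField.restrictNormalHom_ker C]
  exact hψ (h4.trans (map_one ψ).symm)

end gen

variable {E : Type} [Field E] [NumberField E] [IsGalois ℚ E]

/-- every subfield of `E` that is cyclic over `ℚ` lies in a member of `𝒦` -/
def Covers (𝒦 : Set (IntermediateField ℚ E)) : Prop :=
  ∀ C : IntermediateField ℚ E, IsCyc C → ∃ K ∈ 𝒦, C ≤ K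

/-- Every `r ∈ (E ⊗ ℂ)ˣ = ∏_τ ℂˣ` whose norm to `K ⊗ ℂ` lies in `K`, for all `K` in `𝒦`, has its
`k`-th power in `E`. -/
def Exponent (𝒦 : Set (IntermediateField ℚ E)) (k : ℕ) : Prop :=
  ∀ r : (E →+* ℂ) → ℂ, (∀ τ, r τ ≠ 0) → (∀ K ∈ 𝒦, NormRat K r) → IsRat fun τ => r τ ^ k

theorem const_cexp (hcomm : ∀ g h : E ≃ₐ[ℚ] E, g * h = h * g) {𝒦 : Set (IntermediateField ℚ E)}
    (h : Covers 𝒦) : const (E ≃ₐ[ℚ] E) (CV.cexp (E ≃ₐ[ℚ] E)) ∈ J (gals 𝒦) := by
  classical
  let inst : CommGroup (E ≃ₐ[ℚ] E) := { (inferInstance : Group (E ≃ₐ[ℚ] E)) with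
    mul_comm := hcomm }
  have h1 := @CV.main (Nat.card (E ≃ₐ[ℚ] E)) (E ≃ₐ[ℚ] E) inst inferInstance rfl
  have h2 : ∀ f ∈ @CV.S (E ≃ₐ[ℚ] E) inst, f ∈ J (gals 𝒦) := by
    intro f hf
    refine (AddSubgroup.closure_le (K := J (gals 𝒦))).2 ?_ hf
    rintro _ ⟨B, hB, rfl⟩
    have hn : B.Normal := ⟨fun n hn g => by
      rw [hcomm g n, mul_assoc, mul_inv_cancel, mul_one]
      exact hn⟩
    obtain ⟨K, hK, hle⟩ := h _ (isCyc_fixedField B hB)
    have h5 : K.fixingSubgroup ≤ B := by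
      rw [← IntermediateField.fixingSubgroup_fixedField B]
      exact IntermediateField.fixingSubgroup_le hle
    have h6 : CV.ind B = coset 1 B := by
      funext x
      rw [CV.ind, coset, inv_one, one_mul]
    rw [h6]
    exact coset_mem_of_le ⟨K, hK, rfl⟩ h5
  have h3 := h2 _ h1
  convert h3 using 1
  funext x
  rw [const, Pi.smul_apply, CV.ind, smul_eq_mul]
  simp only [Subgroup.mem_bot]
  split_ifs <;> simp

/-- a character that is nontrivial on all members of `𝓗` kills the ideal -/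
lemma sum_eq_zero {Γ : Type} [Group Γ] [Fintype Γ] {𝓗 : Set (Subgroup Γ)} (χ : Γ →* ℂ)
    (hχ : ∀ H ∈ 𝓗, ∃ h ∈ H, χ h ≠ 1) {f : Γ → ℤ} (hf : f ∈ J 𝓗) :
    ∑ x : Γ, (f x : ℂ) * χ x = 0 := by
  classical
  induction hf using AddSubgroup.closure_induction with
  | mem f h =>
    obtain ⟨g, H, hH, rfl⟩ := h
    obtain ⟨a, ha, ha1⟩ := hχ H hH
    have h1 : (χ.comp H.subtype : H →* ℂ) ≠ 1 := fun h2 => ha1 (DFunLike.congr_fun h2 ⟨a, ha⟩)
    have h5 : ∑ x : H, χ x.1 = 0 := sum_hom_units_eq_zero (χ.comp H.subtype) h1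
    rw [← Equiv.sum_comp (Equiv.mulLeft g)]
    have h3 : ∀ x : Γ, ((coset g H ((Equiv.mulLeft g) x) : ℤ) : ℂ) *
        χ ((Equiv.mulLeft g) x) = χ g * (if x ∈ H then χ x else 0) := by
      intro x
      rw [Equiv.coe_mulLeft, coset, inv_mul_cancel_left, map_mul]
      split_ifs <;> simp
    rw [Finset.sum_congr rfl fun x _ => h3 x, ← Finset.mul_sum, ← Finset.sum_filter]
    have h4 : ∑ x ∈ Finset.univ.filter (fun x => x ∈ H), χ x = ∑ x : H, χ x.1 :=
      Finset.sum_subtype _ (fun x => by rw [Finset.mem_filter]; simp) _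
    rw [h4, h5, mul_zero]
  | zero => simp
  | add a b _ _ ha hb =>
    have h1 : ∑ x : Γ, (((a + b) x : ℤ) : ℂ) * χ x =
        ∑ x : Γ, (a x : ℂ) * χ x + ∑ x : Γ, (b x : ℂ) * χ x := by
      rw [← Finset.sum_add_distrib]
      exact Finset.sum_congr rfl fun x _ => by rw [Pi.add_apply]; push_cast; ring
    rw [h1, ha, hb, add_zero]
  | neg a _ ha =>
    have h1 : ∑ x : Γ, (((-a) x : ℤ) : ℂ) * χ x = -∑ x : Γ, (a x : ℂ) * χ x := by
      rw [← Finset.sum_neg_distrib]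
      exact Finset.sum_congr rfl fun x _ => by rw [Pi.neg_apply]; push_cast; ring
    rw [h1, ha, neg_zero]

lemma const_notMem {Γ : Type} [Group Γ] [Finite Γ] {𝓗 : Set (Subgroup Γ)} (χ : Γ →* ℂ)
    (hχ : ∀ H ∈ 𝓗, ∃ h ∈ H, χ h ≠ 1) {k : ℕ} (hk : 0 < k) : const Γ k ∉ J 𝓗 := by
  classical
  have := Fintype.ofFinite Γ
  intro h
  have h1 := sum_eq_zero χ hχ h
  rw [Finset.sum_eq_single (1 : Γ)] at h1
  · rw [const, if_pos rfl, map_one, mul_one] at h1
    have h2 : k = 0 := by exact_mod_cast h1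
    exact hk.ne' h2
  · intro x _ hx
    rw [const, if_neg hx]
    simp
  · intro h
    exact absurd (Finset.mem_univ _) h

/-- if an integer `k ≥ 1` lies in the ideal then every cyclic subfield lies in a member of `𝒦` -/
theorem covers_of_mem {𝒦 : Set (IntermediateField ℚ E)} {k : ℕ} (hk : 0 < k)
    (h : const (E ≃ₐ[ℚ] E) k ∈ J (gals 𝒦)) : Covers 𝒦 := by
  intro C hC
  by_contra hcon
  push Not at hcon
  obtain ⟨χ, hχ⟩ := hC.exists_char
  refine const_notMem χ ?_ hk h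
  rintro H ⟨K, hK, rfl⟩
  by_contra h2
  push Not at h2
  apply hcon K hK
  rw [← IsGalois.fixedField_fixingSubgroup K, ← IsGalois.fixedField_fixingSubgroup C]
  exact IntermediateField.fixedField_le fun x hx => hχ x (h2 x hx)

end Pool.Agent.H504.RV
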