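import Pool.Agent.H504.CF.Sharp

/-!
# Completed L-functions of motives over a totally imaginary field, with coefficients in a number
field, and the statement on ratios of successive critical values
-/

set_option autoImplicit false

namespace Pool.Agent.H504.RV

open Polynomial NumberField IsDedekindDomain Pool.Agent.H504.CF

/-- `F` contains a CM subfield, and `F₁ = F₀(x)` is the maximal one, where `F₀` is the maximal totally
real subfield and `x ^ 2 = D ∈ F₀` is totally negative -/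
def IsCM (F : Type) [Field F] [NumberField F] (x : F) (D : maximalRealSubfield F) : Prop :=
  x ^ 2 = (D : F) ∧ ∀ φ : maximalRealSubfield F →+* ℂ, ∃ r : ℝ, r < 0 ∧ φ D = r

/-- `δ` is a value of `Δ_F`: a power `ε ^ [F : F₁]` of a square root `ε` of `N_{F₀/ℚ}(D)` if `F`
contains a CM subfield, and `1` if it does not -/
def IsDelta (F : Type) [Field F] [NumberField F] (δ : ℂ) : Prop :=
  (∃ (x : F) (D : maximalRealSubfield F) (ε : ℂ), IsCM F x D ∧ ε ^ 2 = (Algebra.norm ℚ D : ℂ) ∧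
    δ = ε ^ Module.finrank (IntermediateField.adjoin (maximalRealSubfield F) {x}) F) ∨
  ((¬ ∃ (x : F) (D : maximalRealSubfield F), IsCM F x D) ∧ δ = 1)

/-- The data of a pure motive `M₀` over `F` with coefficients in `E` that determine the completed
L-function of `M = Res_{F/ℚ} M₀`. -/
structure Data (F E : Type) [Field F] [NumberField F] [Field E] [NumberField E] where
  /-- the rank of `M₀` -/
  n : ℕ
  /-- the weight -/
  w : ℤ
  /-- the Hodge numbers of `M`: `h p` is the rank of `M^{p, w - p}` over `E ⊗ ℂ` -/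
  h : ℤ → ℕ
  /-- the polynomials `P v = det (1 - Frob_v X | (M₀)_λ^{I_v})` of the local factors -/
  P : HeightOneSpectrum (𝓞 F) → E[X]

/-- The data of a pure motive `M₀` over `F` with coefficients in `E` such that `M = Res_{F/ℚ} M₀` has
no middle Hodge type: the rank of `M` is `n [F : ℚ]`, the Hodge numbers are symmetric, and
`h p = 0` for `2 p = w`. -/
structure Motive (F E : Type) [Field F] [NumberField F] [Field E] [NumberField E] extends
    Data F E where
  finite_h : (Function.support h).Finite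
  sum_h : ∑ᶠ p, h p = n * Module.finrank ℚ F
  symm_h : ∀ p, h (w - p) = h p
  middle_h : ∀ p, 2 * p = w → h p = 0

namespace Motive

variable {F E : Type} [Field F] [NumberField F] [Field E] [NumberField E] (M : Motive F E)

/-- the archimedean factor `∏_{p < q} Γ_ℂ(s - p)^{h p}` of `L(s, σ, M)`, `Γ_ℂ(s) = 2 (2 π)^{-s} Γ(s)` -/
noncomputable def gam (s : ℂ) : ℂ :=
  ∏ᶠ p : ℤ, if 2 * p < M.w then Complex.Gammaℂ (s - p) ^ M.h p else 1

/-- `m` is critical: neither `L_∞(s, M)` nor `L_∞(1 - s, M^∨)` has a pole at `m`, that is,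
`p < m ≤ q` for all Hodge types `(p, q)`, `p < q` -/
def Critical (m : ℤ) : Prop := ∀ p, 2 * p < M.w → M.h p ≠ 0 → p < m ∧ m ≤ M.w - p

variable (K : Type) [Field K] [Algebra K E]

/-- `v` is the value at `m` of the completed L-function `L(s, σ, Res_{E/K} M)`: the product of the
archimedean factor (that of `M` to the power `[E : K]`) and of the
`σ(N_{E/K} P_v)(N v^{-s})^{-1} = ∏_{τ | σ} τ(P_v)(N v^{-s})^{-1}` over the primes `v` of `F`, continued
meromorphically to `ℂ` and holomorphic at `m`. For `K = E` this is `L(m, σ, M)`. -/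
def IsLValue (σ : K →+* ℂ) (m : ℤ) (v : ℂ) : Prop :=
  ∃ (f g : ℂ → ℂ) (b : ℝ), MeromorphicOn f Set.univ ∧
    (∀ s : ℂ, b < s.re → HasProd (fun p : HeightOneSpectrum (𝓞 F) =>
      ∏ τ : Above (E := E) K σ, (((M.P p).map τ.1).eval
        ((Ideal.absNorm p.asIdeal : ℂ) ^ (-s)))⁻¹) (g s)) ∧
    (∀ s : ℂ, b < s.re → f s = M.gam s ^ Module.finrank K E * g s) ∧
    AnalyticAt ℂ f m ∧ f m = v

/-- Q1 for `Res_{E/K} M₀` and `m`, up to raising to the `k`-th power: if `m`, `m + 1` are critical,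
the L-functions are continued to `m`, `m + 1`, and `L(m + 1)` is invertible, then
`(L(m) / L(m + 1)) ^ k = (1 ⊗ i ^ {d_F / 2} Δ_F) ^ {rank · k}` in `(K ⊗ ℂ) / Kˣ`. The rank of
`Res_{E/K} M₀` is `n [E : K]`. -/
def RatioPow (δ : ℂ) (m : ℤ) (k : ℕ) : Prop :=
  M.Critical m → M.Critical (m + 1) → ∀ u v : (K →+* ℂ) → ℂ,
    (∀ σ, M.IsLValue K σ m (u σ)) → (∀ σ, M.IsLValue K σ (m + 1) (v σ)) → (∀ σ, v σ ≠ 0) →
    ∃ e : K, e ≠ 0 ∧ ∀ σ : K →+* ℂ, (u σ / v σ) ^ k =
      σ e * ((Complex.I ^ (Module.finrank ℚ F / 2) * δ) ^ (M.n * Module.finrank K E)) ^ k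

/-- Q1 for `Res_{E/K} M₀` and `m`: `L(m) / L(m + 1) = (1 ⊗ i ^ {d_F / 2} Δ_F) ^ rank` in
`(K ⊗ ℂ) / Kˣ`, for the data of `RatioPow`. -/
def Ratio (δ : ℂ) (m : ℤ) : Prop :=
  M.Critical m → M.Critical (m + 1) → ∀ u v : (K →+* ℂ) → ℂ,
    (∀ σ, M.IsLValue K σ m (u σ)) → (∀ σ, M.IsLValue K σ (m + 1) (v σ)) → (∀ σ, v σ ≠ 0) →
    ∃ e : K, e ≠ 0 ∧ ∀ σ : K →+* ℂ, u σ / v σ =
      σ e * (Complex.I ^ (Module.finrank ℚ F / 2) * δ) ^ (M.n * Module.finrank K E)

end Motive

end Pool.Agent.H504.RV
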