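import Pool.Agent.H504.RV.Final

/-!
# Deligne's statement for a motive from its restrictions of coefficients: the general criterion
-/

set_option autoImplicit false
set_option linter.unusedSectionVars false

namespace Pool.Agent.H504.RV

open Pool.Agent.H504.CF

variable {E : Type} [Field E] [NumberField E] [IsGalois ℚ E] {𝒦 : Set (IntermediateField ℚ E)}

theorem delignePow_of_mem (hne : 𝒦.Nonempty) (M : CF.Motive E) {m : ℤ} (hv0 : M.NonVanishing m)
    (hK : ∀ K ∈ 𝒦, M.Deligne K m) {k : ℕ} (hk : const (E ≃ₐ[ℚ] E) k ∈ J (gals 𝒦)) :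
    M.DelignePow E m k := by
  intro v c hv hc
  obtain ⟨K₀, hK₀⟩ := hne
  have h1 := normRat_of_deligne M hv (fun τ => hv0 τ _ (hv τ)) hc (hK K₀ hK₀)
  refine deligne_of_isRat M h1.1 (isRat_pow (𝒦 := 𝒦) (fun τ => ?_) (fun K hK' =>
    (normRat_of_deligne M hv (fun τ => hv0 τ _ (hv τ)) hc (hK K hK')).2) hk)
  exact mul_ne_zero (hv0 τ _ (hv τ)) (inv_ne_zero (mul_ne_zero (twist_ne_zero M m) (h1.1 τ)))

theorem deligne_of_mem (hne : 𝒦.Nonempty) (M : CF.Motive E) {m : ℤ} (hv0 : M.NonVanishing m)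
    (hK : ∀ K ∈ 𝒦, M.Deligne K m) (hk : const (E ≃ₐ[ℚ] E) 1 ∈ J (gals 𝒦)) : M.Deligne E m := by
  intro v c hv hc
  obtain ⟨e, he⟩ := delignePow_of_mem hne M hv0 hK (k := 1) (by exact_mod_cast hk) v c hv hc
  refine ⟨e, fun σ => ?_⟩
  have h := he σ
  rwa [pow_one, pow_one] at h

/-- the criterion for abelian fields and all proper subfields -/
theorem abelian_proper (hcomm : ∀ g h : E ≃ₐ[ℚ] E, g * h = h * g) (hE : 1 < Module.finrank ℚ E)
    {k : ℕ} (hk : 0 < k) :
    const (E ≃ₐ[ℚ] E) k ∈ J (gals {K : IntermediateField ℚ E | K ≠ ⊤}) ↔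
      Good (E ≃ₐ[ℚ] E) k := by
  have hne : ({K : IntermediateField ℚ E | K ≠ ⊤}).Nonempty := by
    refine ⟨⊥, fun h => ?_⟩
    have h1 : Module.finrank ℚ (⊥ : IntermediateField ℚ E) = 1 := IntermediateField.finrank_bot
    rw [h] at h1
    have h2 : Module.finrank ℚ (⊤ : IntermediateField ℚ E) = Module.finrank ℚ E :=
      IntermediateField.finrank_top'
    rw [h2] at h1
    exact hE.ne' h1
  rw [← exponent_iff_mem hne, ← abelian_iff hcomm hE hk]
  rfl

end Pool.Agent.H504.RV
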