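import Pool.Agent.H504.RV.Iff

/-!
# Sets of subfields that contain all proper subfields, and abelian fields
-/

set_option autoImplicit false
set_option linter.unusedSectionVars false

namespace Pool.Agent.H504.RV

open Pool.Agent.H504.CF

variable {E : Type} [Field E] [NumberField E] [IsGalois ℚ E] {𝒦 : Set (IntermediateField ℚ E)}

lemma mem_gals (h : ∀ K : IntermediateField ℚ E, K ≠ ⊤ → K ∈ 𝒦) (C : Subgroup (E ≃ₐ[ℚ] E))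
    (hC : C ≠ ⊥) : C ∈ gals 𝒦 :=
  ⟨IntermediateField.fixedField C, h _ (fixedField_ne_top hC),
    (IntermediateField.fixingSubgroup_fixedField C).symm⟩

/-- the criterion if `𝒦` contains all proper subfields -/
theorem proper (h : ∀ K : IntermediateField ℚ E, K ≠ ⊤ → K ∈ 𝒦) :
    (∀ q : ℕ, HasPQ (E ≃ₐ[ℚ] E) q → const (E ≃ₐ[ℚ] E) q ∈ J (gals 𝒦)) ∧
    (∀ q q' : ℕ, HasPQ (E ≃ₐ[ℚ] E) q → HasPQ (E ≃ₐ[ℚ] E) q' → q ≠ q' →
      const (E ≃ₐ[ℚ] E) 1 ∈ J (gals 𝒦)) ∧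
    (∀ n : ℕ, 4 ≤ n → Nonempty ((E ≃ₐ[ℚ] E) ≃* Equiv.Perm (Fin n)) →
      const (E ≃ₐ[ℚ] E) 1 ∈ J (gals 𝒦)) :=
  ⟨fun _ hq => const_of_pq (mem_gals h) hq,
    fun _ _ hq hq' hne => const_of_two (mem_gals h) hq hq' hne,
    fun _ hn ⟨e⟩ => const_of_sym (mem_gals h) hn e⟩

/-- the criterion for abelian fields -/
theorem abelian (hcomm : ∀ g h : E ≃ₐ[ℚ] E, g * h = h * g) :
    ((∃ k : ℕ, 0 < k ∧ const (E ≃ₐ[ℚ] E) k ∈ J (gals 𝒦)) ↔ Covers 𝒦) ∧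
    (Covers 𝒦 → const (E ≃ₐ[ℚ] E) (CV.cexp (E ≃ₐ[ℚ] E)) ∈ J (gals 𝒦)) := by
  refine ⟨⟨fun ⟨k, hk, h⟩ => covers_of_mem hk h, fun h => ⟨_, ?_, const_cexp hcomm h⟩⟩,
    const_cexp hcomm⟩
  refine Finset.prod_pos fun p hp => ?_
  have hp' := (Nat.mem_primeFactors.1 hp).1.pos
  split_ifs
  · exact pow_pos hp' _
  · exact one_pos

end Pool.Agent.H504.RV
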