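import Pool.Agent.H504.RV.Lam
import Pool.Agent.H504.RV.Final

/-!
# The exact exponent for the cyclic subfields of an abelian field
-/

set_option autoImplicit false
set_option linter.unusedSectionVars false

namespace Pool.Agent.H504.RV

open Pool.Agent.H504.CF

lemma isCyclic_quot {k Ω : Type} [Field k] [Field Ω] [Algebra k Ω] [FiniteDimensional k Ω]
    [IsGalois k Ω] {C : IntermediateField k Ω} (hC : IsCyc C) [C.fixingSubgroup.Normal] :
    IsCyclic ((Ω ≃ₐ[k] Ω) ⧸ C.fixingSubgroup) := by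
  obtain ⟨h1, h2⟩ := hC
  have h3 : IsCyclic ((IntermediateField.fixedField C.fixingSubgroup) ≃ₐ[k]
      (IntermediateField.fixedField C.fixingSubgroup)) := by
    rw [IsGalois.fixedField_fixingSubgroup C]
    exact h2
  exact isCyclic_of_surjective (IsGalois.normalAutEquivQuotient C.fixingSubgroup).symm
    (IsGalois.normalAutEquivQuotient C.fixingSubgroup).symm.surjective

variable {E : Type} [Field E] [NumberField E] [IsGalois ℚ E] {𝒦 : Set (IntermediateField ℚ E)}

/-- the exact exponent for abelian fields and their cyclic subfields -/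
theorem abelian_cyc (hcomm : ∀ g h : E ≃ₐ[ℚ] E, g * h = h * g) (h1 : ∀ K ∈ 𝒦, IsCyc K)
    (h2 : Covers 𝒦) (k : ℕ) :
    const (E ≃ₐ[ℚ] E) k ∈ J (gals 𝒦) ↔ CV.cexp (E ≃ₐ[ℚ] E) ∣ k := by
  constructor
  · intro hk
    let inst : CommGroup (E ≃ₐ[ℚ] E) := { (inferInstance : Group (E ≃ₐ[ℚ] E)) with
      mul_comm := hcomm }
    have hle : J (gals 𝒦) ≤ @J _ inst.toGroup {H | @IsCyclic ((E ≃ₐ[ℚ] E) ⧸ H)
        (@QuotientGroup.Quotient.group _ inst.toGroup H inferInstance).toPow} := by
      refine (AddSubgroup.closure_le _).2 ?_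
      rintro _ ⟨g, H, ⟨K, hK, rfl⟩, rfl⟩
      refine AddSubgroup.subset_closure ⟨g, K.fixingSubgroup, ?_, rfl⟩
      have hn : K.fixingSubgroup.Normal := ⟨fun n hn g => by
        rw [hcomm g n, mul_assoc, mul_inv_cancel, mul_one]
        exact hn⟩
      exact isCyclic_quot (h1 K hK)
    have h3 := (@const_mem_iff (E ≃ₐ[ℚ] E) inst inferInstance (k : ℤ)).1 (hle hk)
    exact_mod_cast h3
  · rintro ⟨t, rfl⟩
    have h3 := const_mul (const_cexp hcomm h2) (t : ℤ)
    rw [mul_comm, Nat.cast_mul]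
    exact h3

end Pool.Agent.H504.RV
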