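import Pool.Agent.H504.RV.Cyc

/-!
# If no positive integer lies in the ideal, no exponent works
-/

set_option autoImplicit false
set_option linter.unusedSectionVars false

namespace Pool.Agent.H504.RV

open Pool.Agent.H504.CF

section group

variable {Γ : Type} [Group Γ]

/-- an integer valued function as a rational valued one -/
def toQ (f : Γ → ℤ) : Γ → ℚ := fun x => f x

lemma exists_mul_mem {𝓗 : Set (Subgroup Γ)} {f : Γ → ℚ}
    (hf : f ∈ Submodule.span ℚ {f | ∃ (g : Γ) (H : Subgroup Γ), H ∈ 𝓗 ∧ f = toQ (coset g H)}) :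
    ∃ (N : ℕ) (F : Γ → ℤ), 0 < N ∧ F ∈ J 𝓗 ∧ ∀ x, (N : ℚ) * f x = F x := by
  induction hf using Submodule.span_induction with
  | mem f h =>
    obtain ⟨g, H, hH, rfl⟩ := h
    exact ⟨1, coset g H, one_pos, AddSubgroup.subset_closure ⟨g, H, hH, rfl⟩, fun x => by
      rw [Nat.cast_one, one_mul]
      rfl⟩
  | zero => exact ⟨1, 0, one_pos, zero_mem _, fun x => by simp⟩
  | add a b _ _ ha hb =>
    obtain ⟨N, F, hN, hF, h⟩ := ha
    obtain ⟨N', F', hN', hF', h'⟩ := hb
    refine ⟨N * N', (N' : ℤ) • F + (N : ℤ) • F', Nat.mul_pos hN hN', add_mem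
      (AddSubgroup.zsmul_mem _ hF _) (AddSubgroup.zsmul_mem _ hF' _), fun x => ?_⟩
    rw [Pi.add_apply, Pi.add_apply, Pi.smul_apply, Pi.smul_apply, smul_eq_mul, smul_eq_mul]
    push_cast
    rw [← h x, ← h' x]
    ring
  | smul q a _ ha =>
    obtain ⟨N, F, hN, hF, h⟩ := ha
    refine ⟨q.den * N, q.num • F, Nat.mul_pos q.pos hN, AddSubgroup.zsmul_mem _ hF _, fun x => ?_⟩
    rw [Pi.smul_apply, Pi.smul_apply, smul_eq_mul, smul_eq_mul]
    push_cast
    rw [← h x]
    have h1 : (q.den : ℚ) * q = q.num := by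
      rw [mul_comm]
      exact Rat.mul_den_eq_num q
    calc (q.den : ℚ) * N * (q * a x) = ((q.den : ℚ) * q) * (N * a x) := by ring
      _ = _ := by rw [h1]

/-- an integer valued function with vanishing sums over the cosets of the members of `𝓗` -/
lemma exists_int_fun' [Finite Γ] {𝓗 : Set (Subgroup Γ)}
    (h : ∀ k : ℕ, 0 < k → const Γ k ∉ J 𝓗) :
    ∃ y : Γ → ℤ, y 1 ≠ 0 ∧ ∀ H ∈ 𝓗, ∀ g : Γ, ∑ᶠ c : H, y (g * c) = 0 := by
  classical
  have := Fintype.ofFinite Γ
  set W : Submodule ℚ (Γ → ℚ) :=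
    Submodule.span ℚ {f | ∃ (g : Γ) (H : Subgroup Γ), H ∈ 𝓗 ∧ f = toQ (coset g H)} with hW
  have h1 : (Pi.single 1 1 : Γ → ℚ) ∉ W := by
    intro hmem
    obtain ⟨N, F, hN, hF, hx⟩ := exists_mul_mem hmem
    apply h N hN
    convert hF using 1
    funext x
    have h2 := hx x
    rw [const]
    by_cases hx1 : x = 1
    · subst hx1
      rw [Pi.single_eq_same, mul_one] at h2
      rw [if_pos rfl]
      exact_mod_cast h2
    · rw [Pi.single_eq_of_ne hx1, mul_zero] at h2
      rw [if_neg hx1]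
      exact_mod_cast h2
  obtain ⟨φ, hφ, hφW⟩ := Submodule.exists_le_ker_of_notMem h1
  let D : ℕ := ∏ g : Γ, (φ (Pi.single g 1)).den
  have hD : D ≠ 0 := Finset.prod_ne_zero_iff.2 fun g _ => (φ (Pi.single g 1)).den_nz
  have h2 : ∀ g : Γ, ∃ n : ℤ, (n : ℚ) = D * φ (Pi.single g 1) := by
    intro g
    obtain ⟨t, ht⟩ : (φ (Pi.single g 1)).den ∣ D := Finset.dvd_prod_of_mem _ (Finset.mem_univ g)
    refine ⟨t * (φ (Pi.single g 1)).num, ?_⟩
    have h3 : (φ (Pi.single g 1)) * (φ (Pi.single g 1)).den = (φ (Pi.single g 1)).num :=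
      Rat.mul_den_eq_num _
    rw [ht]
    push_cast
    rw [← h3]
    ring
  choose y hy using h2
  refine ⟨y, ?_, fun H hH g => ?_⟩
  · intro h0
    have h3 := hy 1
    rw [h0, Int.cast_zero] at h3
    rcases mul_eq_zero.1 h3.symm with h4 | h4
    · exact hD (by exact_mod_cast h4)
    · exact hφ h4
  · have h3 : toQ (coset g H) = ∑ c : H, Pi.single (g * (c : Γ)) (1 : ℚ) := by
      funext x
      rw [Finset.sum_apply, toQ, coset]
      by_cases hx : g⁻¹ * x ∈ H
      · rw [if_pos hx, Finset.sum_eq_single ⟨g⁻¹ * x, hx⟩]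
        · rw [mul_inv_cancel_left, Pi.single_eq_same, Int.cast_one]
        · intro c _ hc
          refine Pi.single_eq_of_ne ?_ _
          intro h4
          apply hc
          apply Subtype.ext
          change (c : Γ) = g⁻¹ * x
          rw [h4, inv_mul_cancel_left]
        · intro h4
          exact absurd (Finset.mem_univ _) h4
      · rw [if_neg hx, Int.cast_zero]
        refine (Finset.sum_eq_zero fun c _ => Pi.single_eq_of_ne ?_ _).symm
        intro h4
        apply hx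
        rw [h4, inv_mul_cancel_left]
        exact c.2
    have h4 : φ (toQ (coset g H)) = 0 := hφW (Submodule.subset_span ⟨g, H, hH, rfl⟩)
    rw [h3, map_sum] at h4
    rw [finsum_eq_sum_of_fintype]
    have h5 : ((∑ c : H, y (g * c) : ℤ) : ℚ) = 0 := by
      push_cast
      rw [Finset.sum_congr rfl fun (c : H) _ => hy (g * (c : Γ)), ← Finset.mul_sum, h4, mul_zero]
    exact_mod_cast h5

end group

variable {E : Type} [Field E] [NumberField E] [IsGalois ℚ E]

/-- If no positive integer lies in the ideal, some `r` has norm `1` to `K ⊗ ℂ` for all `K` in `𝒦`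
but no power in `E`. -/
theorem exists_bad {𝒦 : Set (IntermediateField ℚ E)} (hne : 𝒦.Nonempty)
    (h : ∀ k : ℕ, 0 < k → const (E ≃ₐ[ℚ] E) k ∉ J (gals 𝒦)) :
    ∃ r : (E →+* ℂ) → ℂ, (∀ τ, r τ ≠ 0) ∧
      (∀ K ∈ 𝒦, ∀ σ : K →+* ℂ, ∏ τ : Above (E := E) K σ, r τ.1 = 1) ∧
      ∀ k : ℕ, 0 < k → ¬ IsRat fun τ => r τ ^ k := by
  classical
  obtain ⟨y, hy1, hy⟩ := exists_int_fun' h
  obtain ⟨τ₀⟩ : Nonempty (E →+* ℂ) := inferInstance
  refine ⟨ofFun τ₀ fun g => (2 : ℂ) ^ y g, fun τ => zpow_ne_zero _ two_ne_zero, ?_, ?_⟩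
  · intro K hK
    have hK' : K.fixingSubgroup ∈ gals 𝒦 := ⟨K, hK, rfl⟩
    have hy' := hy _ hK'
    clear hK'
    revert hy'
    obtain ⟨H, rfl⟩ : ∃ H : Subgroup (E ≃ₐ[ℚ] E), K = IntermediateField.fixedField H :=
      ⟨K.fixingSubgroup, (IsGalois.fixedField_fixingSubgroup K).symm⟩
    rw [IntermediateField.fixingSubgroup_fixedField]
    intro hy' σ
    obtain ⟨τ, hτ⟩ : Nonempty (Above (E := E) (IntermediateField.fixedField H) σ) := by
      rw [← Fintype.card_pos_iff, card_above]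
      exact Module.finrank_pos
    subst hτ
    rw [prod_above]
    obtain ⟨g, rfl⟩ := (embEquiv τ₀).surjective τ
    rw [nm, ← Finset.prod_filter]
    change ∏ a ∈ _, ofFun τ₀ _ (cmp (cmp τ₀ g) a) = _
    simp_rw [← cmp_mul, ofFun_cmp]
    have h1 : ∏ a ∈ Finset.univ.filter (fun a : E ≃ₐ[ℚ] E => a ∈ H), (2 : ℂ) ^ y (g * a) =
        ∏ c : H, (2 : ℂ) ^ y (g * c) :=
      Finset.prod_subtype _ (fun c => by rw [Finset.mem_filter]; simp)
        (fun c : E ≃ₐ[ℚ] E => (2 : ℂ) ^ y (g * c))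
    rw [h1]
    have h2 := hy' g
    rw [finsum_eq_sum_of_fintype] at h2
    have h3 : ∀ s : Finset H, ∏ c ∈ s, (2 : ℂ) ^ y (g * c) = 2 ^ (∑ c ∈ s, y (g * c)) := by
      intro s
      induction s using Finset.induction_on with
      | empty => simp
      | insert a s ha ih =>
        rw [Finset.prod_insert ha, Finset.sum_insert ha, ih, zpow_add₀ two_ne_zero]
    rw [h3, h2, zpow_zero]
  · intro k hk hrat
    -- `y` is not constant
    obtain ⟨g, hg⟩ : ∃ g, y g ≠ y 1 := by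
      by_contra hcon
      push Not at hcon
      obtain ⟨K, hK⟩ := hne
      have h1 := hy _ ⟨K, hK, rfl⟩ 1
      rw [finsum_eq_sum_of_fintype, Finset.sum_congr rfl fun c _ => hcon _, Finset.sum_const,
        nsmul_eq_mul, mul_eq_zero] at h1
      rcases h1 with h1 | h1
      · have h2 : Fintype.card K.fixingSubgroup = 0 := by exact_mod_cast h1
        exact Fintype.card_ne_zero h2
      · exact hy1 h1
    have h2 : IsRat (ofFun τ₀ fun g => (2 : ℂ) ^ (y g * k)) := by
      convert hrat using 2 with τ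
      rw [ofFun, ofFun, ← zpow_natCast, ← zpow_mul]
    refine not_isRat_ofFun τ₀ _ (q := 2 ^ (y 1 * k)) ?_ (g := g) ?_ h2
    · push_cast
      rfl
    · intro h3
      have h4 : ((2 : ℝ)) ^ (y g * k) = 2 ^ (y 1 * k) := by
        have h5 : ((2 : ℝ) ^ (y g * k) : ℂ) = ((2 : ℝ) ^ (y 1 * k) : ℂ) := by
          push_cast at h3 ⊢
          exact h3
        exact_mod_cast h5
      have h5 := zpow_right_injective₀ (by norm_num : (0 : ℝ) < 2) (by norm_num) h4
      have h6 : (y g - y 1) * (k : ℤ) = 0 := by linarith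
      rcases mul_eq_zero.1 h6 with h7 | h7
      · exact hg (by linarith)
      · exact hk.ne' (by exact_mod_cast h7)

/-- Some positive exponent works for `𝒦` iff some positive integer lies in the ideal. -/
theorem exponent_iff {𝒦 : Set (IntermediateField ℚ E)} (hne : 𝒦.Nonempty) :
    (∃ k : ℕ, 0 < k ∧ Exponent 𝒦 k) ↔
      ∃ k : ℕ, 0 < k ∧ const (E ≃ₐ[ℚ] E) k ∈ J (gals 𝒦) := by
  constructor
  · rintro ⟨k, hk, hexp⟩
    by_contra hcon
    push Not at hcon
    obtain ⟨r, h0, hr, hbad⟩ := exists_bad hne hcon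
    exact hbad k hk (hexp r h0 fun K hK => ⟨1, fun σ => by rw [hr K hK σ, map_one]⟩)
  · rintro ⟨k, hk, hmem⟩
    exact ⟨k, hk, fun r h0 hr => isRat_pow h0 hr hmem⟩

end Pool.Agent.H504.RV
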