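import Pool.Agent.H504.CF.Main

/-!
# An element with independent conjugates
-/

set_option autoImplicit false
set_option linter.unusedSectionVars false

namespace Pool.Agent.H504.RV

open NumberField IsDedekindDomain Pool.Agent.H504.CF

variable {E : Type} [Field E] [NumberField E]

/-- For `η ≠ 0` some `1 - s η` is nonzero and not a unit. -/
lemma exists_nonunit {η : 𝓞 E} (hη : η ≠ 0) : ∃ s : ℕ, ¬ IsUnit (1 - (s : 𝓞 E) * η) ∧
    1 - (s : 𝓞 E) * η ≠ 0 := by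
  have h0 : ∀ τ : E →ₐ[ℚ] ℂ, 0 < ‖τ (η : E)‖ := fun τ => by
    rw [norm_pos_iff]
    exact (_root_.map_ne_zero τ).2 (fun h => hη (RingOfIntegers.ext h))
  obtain ⟨s, hs⟩ : ∃ s : ℕ, ∀ τ : E →ₐ[ℚ] ℂ, 3 ≤ s * ‖τ (η : E)‖ := by
    choose t ht using fun τ : E →ₐ[ℚ] ℂ => exists_nat_ge (3 / ‖τ (η : E)‖)
    refine ⟨∑ τ, t τ, fun τ => ?_⟩
    have h1 : (t τ : ℝ) ≤ ((∑ τ, t τ : ℕ) : ℝ) := by
      exact_mod_cast Finset.single_le_sum (f := t) (fun _ _ => Nat.zero_le _) (Finset.mem_univ τ)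
    have h2 := (div_le_iff₀ (h0 τ)).1 ((ht τ).trans h1)
    exact h2
  set x : E := ((1 - (s : 𝓞 E) * η : 𝓞 E) : E) with hx
  have h3 : ∀ τ : E →ₐ[ℚ] ℂ, 2 ≤ ‖τ x‖ := by
    intro τ
    have h4 : τ x = 1 - s * τ (η : E) := by
      have h5 : x = 1 - (s : E) * (η : E) := by
        rw [hx]
        push_cast
        rfl
      rw [h5, map_sub, map_one, map_mul, map_natCast]
    have h5 : ‖(s : ℂ) * τ (η : E)‖ = s * ‖τ (η : E)‖ := by
      rw [norm_mul, Complex.norm_natCast]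
    have h6 := norm_sub_norm_le ((s : ℂ) * τ (η : E)) 1
    rw [h5, norm_one] at h6
    rw [h4, norm_sub_rev]
    linarith [hs τ]
  have h5 : Fintype.card (E →ₐ[ℚ] ℂ) ≠ 0 := by
    rw [AlgHom.card]
    exact Module.finrank_pos.ne'
  refine ⟨s, fun h => ?_, fun h => ?_⟩
  swap
  · obtain ⟨τ⟩ : Nonempty (E →ₐ[ℚ] ℂ) := Fintype.card_pos_iff.1 (Nat.pos_of_ne_zero h5)
    have h6 := h3 τ
    have h7 : x = 0 := by
      rw [hx, h]
      rfl
    rw [h7, map_zero, norm_zero] at h6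
    linarith
  rw [NumberField.isUnit_iff_norm, RingOfIntegers.coe_norm] at h
  have h1 := Algebra.norm_eq_prod_embeddings ℚ ℂ x
  have h2 : ‖(algebraMap ℚ ℂ) ((Algebra.norm ℚ) x)‖ = 1 := by
    rw [eq_ratCast, ← Complex.ofReal_ratCast, Complex.norm_real, Real.norm_eq_abs]
    exact_mod_cast h
  rw [h1, norm_prod] at h2
  have h4 : (2 : ℝ) ^ (Fintype.card (E →ₐ[ℚ] ℂ)) ≤ ∏ τ : E →ₐ[ℚ] ℂ, ‖τ x‖ := by
    rw [← Finset.card_univ, ← Finset.prod_const]
    exact Finset.prod_le_prod (fun _ _ => by norm_num) fun τ _ => h3 τ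
  rw [h2] at h4
  have h6 : (1 : ℝ) < 2 ^ (Fintype.card (E →ₐ[ℚ] ℂ)) := one_lt_pow₀ (by norm_num) h5
  linarith

/-- an integral element not fixed by any `g ≠ 1` -/
lemma exists_theta [IsGalois ℚ E] : ∃ θ : 𝓞 E, θ ≠ 0 ∧ ∀ g : E ≃ₐ[ℚ] E, g ≠ 1 →
    g (θ : E) ≠ (θ : E) := by
  obtain ⟨α, hα⟩ := Field.exists_primitive_element ℚ E
  have hfix : ∀ g : E ≃ₐ[ℚ] E, g ≠ 1 → g α ≠ α := by
    intro g hg h
    have h1 : Subgroup.zpowers g ≠ ⊥ := by
      rwa [Ne, Subgroup.zpowers_eq_bot]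
    apply fixedField_ne_top h1
    rw [← top_le_iff, ← hα, IntermediateField.adjoin_simple_le_iff]
    rintro ⟨x, hx⟩
    obtain ⟨n, rfl⟩ := Subgroup.mem_zpowers_iff.1 hx
    change (g ^ n) α = α
    have h2 : g ∈ MulAction.stabilizer (E ≃ₐ[ℚ] E) α := h
    exact (MulAction.stabilizer (E ≃ₐ[ℚ] E) α).zpow_mem h2 n
  obtain ⟨y, hy, hint⟩ := ((IsFractionRing.isAlgebraic_iff ℤ ℚ E).2
    (Algebra.IsAlgebraic.isAlgebraic (R := ℚ) α)).exists_integral_multiple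
  have hy' : (y : E) ≠ 0 := by exact_mod_cast hy
  by_cases h0 : α = 0
  · refine ⟨1, one_ne_zero, fun g hg => ?_⟩
    refine absurd ?_ (hfix g hg)
    rw [h0, map_zero]
  · refine ⟨⟨y • α, hint⟩, ?_, fun g hg h => ?_⟩
    · intro h
      have h1 : y • α = 0 := congrArg (fun z : 𝓞 E => (z : E)) h
      rw [zsmul_eq_mul] at h1
      exact mul_ne_zero hy' h0 h1
    · apply hfix g hg
      have h1 : g (y • α) = y • α := h
      rw [zsmul_eq_mul, map_mul, map_intCast] at h1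
      exact mul_left_cancel₀ hy' h1

/-- the conjugate of an algebraic integer -/
noncomputable def conj (g : E ≃ₐ[ℚ] E) (x : 𝓞 E) : 𝓞 E := ⟨g x, map_isIntegral_int g x.2⟩

/-- a prime with trivial stabiliser, and an element which it contains but its conjugates do not -/
lemma exists_alpha [IsGalois ℚ E] : ∃ (v : HeightOneSpectrum (𝓞 E)) (a : 𝓞 E), a ≠ 0 ∧
    a ∈ v.asIdeal ∧ ∀ g : E ≃ₐ[ℚ] E, g ≠ 1 → conj g a ∉ v.asIdeal := by
  classical
  obtain ⟨θ, hθ, hfix⟩ := exists_theta (E := E)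
  have hdvd : ∀ x : 𝓞 E, x ≠ 0 → ∃ (c : ℕ) (y : 𝓞 E), (c : 𝓞 E) ≠ 0 ∧ (c : 𝓞 E) = x * y := by
    intro x hx
    obtain ⟨y, hy⟩ := Ideal.mem_span_singleton'.1 (Ideal.absNorm_mem (Ideal.span {x}))
    refine ⟨Ideal.absNorm (Ideal.span {x}), y, ?_, by rw [← hy, mul_comm]⟩
    have h1 : Ideal.absNorm (Ideal.span {x}) ≠ 0 := by
      rw [Ne, Ideal.absNorm_eq_zero_iff, Ideal.span_singleton_eq_bot]
      exact hx
    exact_mod_cast h1
  obtain ⟨c, θ', hc, hcθ⟩ := hdvd θ hθ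
  have hθ' : θ' ≠ 0 := by
    rintro rfl
    exact hc (by rw [hcθ, mul_zero])
  set D : 𝓞 E := ∏ g ∈ Finset.univ.filter (fun g : E ≃ₐ[ℚ] E => g ≠ 1), (conj g θ - θ) with hD
  have hD0 : D ≠ 0 := by
    refine Finset.prod_ne_zero_iff.2 fun g hg h => ?_
    apply hfix g (Finset.mem_filter.1 hg).2
    exact sub_eq_zero.1 (congrArg (fun z : 𝓞 E => (z : E)) h)
  obtain ⟨d, D', hd, hdD⟩ := hdvd D hD0
  obtain ⟨s, hs, hs0⟩ := exists_nonunit (E := E) (η := θ' * d) (mul_ne_zero hθ' hd)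
  obtain ⟨I, hI, hmem⟩ := exists_max_ideal_of_mem_nonunits hs
  have hIp := hI.isPrime
  refine ⟨⟨I, hIp, Ring.ne_bot_of_isMaximal_of_not_isField hI (RingOfIntegers.not_isField E)⟩,
    θ * (1 - (s : 𝓞 E) * (θ' * d)), ?_, ?_, fun g hg hga => ?_⟩
  · exact mul_ne_zero hθ hs0
  · exact Ideal.mul_mem_left _ _ hmem
  · have h1 : θ * (1 - (s : 𝓞 E) * (θ' * d)) = θ - (c * d * s : ℕ) := by
      push_cast
      rw [hcθ]
      ring
    have h2 : conj g (θ * (1 - (s : 𝓞 E) * (θ' * d))) =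
        (conj g θ - θ) + θ * (1 - (s : 𝓞 E) * (θ' * d)) := by
      rw [h1]
      apply RingOfIntegers.ext
      change g ((θ - (c * d * s : ℕ) : 𝓞 E) : E) = (g θ - θ) + ((θ - (c * d * s : ℕ) : 𝓞 E) : E)
      rw [RingOfIntegers.coe_eq_algebraMap, map_sub, map_natCast, map_sub, map_natCast]
      ring
    rw [h2] at hga
    have h3 : conj g θ - θ ∈ I := (Ideal.add_mem_iff_left _ (Ideal.mul_mem_left _ _ hmem)).1 hga
    have h4 : D ∈ I := by
      rw [hD, ← Finset.mul_prod_erase _ _ (Finset.mem_filter.2 ⟨Finset.mem_univ g, hg⟩)]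
      exact Ideal.mul_mem_right _ _ h3
    have h5 : (d : 𝓞 E) ∈ I := by
      rw [hdD]
      exact Ideal.mul_mem_right _ _ h4
    have h6 : (1 : 𝓞 E) ∈ I := by
      have h7 : (1 : 𝓞 E) = (1 - (s : 𝓞 E) * (θ' * d)) + (s : 𝓞 E) * (θ' * d) := by ring
      rw [h7]
      exact I.add_mem hmem (Ideal.mul_mem_left _ _ (Ideal.mul_mem_left _ _ h5))
    exact hI.ne_top ((Ideal.eq_top_iff_one _).2 h6)

/-- an additive valuation of `E`, trivial on all the conjugates of some `π` except `π` itself -/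
theorem exists_val [IsGalois ℚ E] : ∃ (ν : E → ℤ) (π : E),
    (∀ x y, x ≠ 0 → y ≠ 0 → ν (x * y) = ν x + ν y) ∧ π ≠ 0 ∧ ν π = 1 ∧
    ∀ g : E ≃ₐ[ℚ] E, g ≠ 1 → ν (g π) = 0 := by
  classical
  obtain ⟨v, a, ha0, ha, hconj⟩ := exists_alpha (E := E)
  obtain ⟨t, ht⟩ := v.valuation_exists_uniformizer' E
  set w := v.valuation E with hw
  have hle : ∀ x : 𝓞 E, w (x : E) ≤ 1 := fun x => v.valuation_le_one x
  have hwa : w (a : E) < 1 := (v.valuation_lt_one_iff_mem a).2 ha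
  have hwg : ∀ g : E ≃ₐ[ℚ] E, g ≠ 1 → w (g a) = 1 := fun g hg =>
    v.valuation_eq_one_iff_notMem.2 (hconj g hg)
  have hwg' : ∀ g : E ≃ₐ[ℚ] E, w (g a) ≤ 1 := fun g => hle (conj g a)
  have ha0' : (a : E) ≠ 0 := fun h => ha0 (RingOfIntegers.ext h)
  set γ : E := ∏ g ∈ Finset.univ.filter (fun g : E ≃ₐ[ℚ] E => g ≠ 1), g a with hγ
  have hwγ : w γ = 1 := by
    rw [hγ, map_prod]
    exact Finset.prod_eq_one fun g hg => hwg g (Finset.mem_filter.1 hg).2
  have hwπ : w (γ * t + a ^ 2) = WithZero.exp (-1 : ℤ) := by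
    have h1 : w (γ * t) = WithZero.exp (-1 : ℤ) := by rw [map_mul, hwγ, one_mul, ht]
    have h2 : w ((a : E) ^ 2) < w (γ * t) := by
      rw [h1, map_pow]
      have h3 : w (a : E) ≠ 0 := (Valuation.ne_zero_iff _).2 ha0'
      rw [← WithZero.log_lt_log h3 one_ne_zero, WithZero.log_one] at hwa
      rw [← WithZero.log_lt_log (pow_ne_zero _ h3) WithZero.exp_ne_zero, WithZero.log_pow,
        WithZero.log_exp, nsmul_eq_mul]
      push_cast
      omega
    rw [Valuation.map_add_eq_of_lt_left _ h2, h1]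
  have hwπ' : ∀ g : E ≃ₐ[ℚ] E, g ≠ 1 → w (g (γ * t + a ^ 2)) = 1 := by
    intro g hg
    rw [map_add, map_mul, map_pow]
    have h1 : w ((g a) ^ 2) = 1 := by rw [map_pow, hwg g hg, one_pow]
    have h2 : w (g γ * g t) < w ((g a) ^ 2) := by
      rw [h1, map_mul]
      have h3 : w (g γ) < 1 := by
        have hg' : g⁻¹ ≠ 1 := fun h => hg (inv_eq_one.1 h)
        rw [hγ, map_prod, map_prod, ← Finset.mul_prod_erase _ _
          (Finset.mem_filter.2 ⟨Finset.mem_univ g⁻¹, hg'⟩)]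
        have h4 : g (g⁻¹ a) = (a : E) := by
          rw [← AlgEquiv.mul_apply, mul_inv_cancel, AlgEquiv.one_apply]
        rw [h4]
        refine lt_of_le_of_lt (mul_le_of_le_one_right' ?_) hwa
        refine Finset.prod_le_one' fun g' _ => ?_
        rw [← AlgEquiv.mul_apply]
        exact hwg' _
      exact lt_of_le_of_lt (mul_le_of_le_one_right' (hle (conj g t))) h3
    rw [Valuation.map_add_eq_of_lt_right _ h2, h1]
  refine ⟨fun x => -WithZero.log (w x), γ * t + a ^ 2, fun x y hx hy => ?_, ?_, ?_, ?_⟩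
  · beta_reduce
    rw [map_mul, WithZero.log_mul ((Valuation.ne_zero_iff _).2 hx) ((Valuation.ne_zero_iff _).2 hy)]
    ring
  · intro h
    rw [h, map_zero] at hwπ
    exact WithZero.exp_ne_zero hwπ.symm
  · beta_reduce
    rw [hwπ, WithZero.log_exp]
    norm_num
  · intro g hg
    beta_reduce
    rw [hwπ' g hg, WithZero.log_one, neg_zero]

end Pool.Agent.H504.RV
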