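import Pool.Agent.H504.RV.Exact
import Pool.Agent.H504.RV.Val

/-!
# The exponents that work are the integers in the ideal
-/

set_option autoImplicit false
set_option linter.unusedSectionVars false

namespace Pool.Agent.H504.RV

open Pool.Agent.H504.CF

section group

variable {Γ : Type} [Group Γ]

lemma translate_mem {𝓗 : Set (Subgroup Γ)} {f : Γ → ℤ} (hf : f ∈ J 𝓗) (g : Γ) :
    (fun x => f (g⁻¹ * x)) ∈ J 𝓗 := by
  induction hf using AddSubgroup.closure_induction with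
  | mem f h =>
    obtain ⟨g', H, hH, rfl⟩ := h
    refine AddSubgroup.subset_closure ⟨g * g', H, hH, ?_⟩
    funext x
    rw [coset, coset, mul_inv_rev, mul_assoc]
  | zero => exact zero_mem _
  | add a b _ _ ha hb => exact add_mem ha hb
  | neg a _ ha => exact neg_mem ha

lemma single_mem {𝓗 : Set (Subgroup Γ)} {N : ℤ} (h : const Γ N ∈ J 𝓗) (g : Γ) :
    (open Classical in fun x => if x = g then N else 0) ∈ J 𝓗 := by
  classical
  have h1 := translate_mem h g
  convert h1 using 1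
  funext x
  rw [const]
  by_cases hx : x = g
  · rw [if_pos hx, if_pos (by rw [hx, inv_mul_cancel])]
  · rw [if_neg hx, if_neg (fun h => hx (inv_mul_eq_one.1 h).symm)]

/-- a rational valued function whose pairings with the ideal are integers, but whose pairing with
`k` is not -/
lemma exists_rat_fun [Fintype Γ] {𝓗 : Set (Subgroup Γ)} {k : ℤ} (h : const Γ k ∉ J 𝓗) :
    ∃ y : Γ → ℚ, (∀ f ∈ J 𝓗, ∃ n : ℤ, ∑ x, (f x : ℚ) * y x = n) ∧ ∀ n : ℤ, (k : ℚ) * y 1 ≠ n := by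
  classical
  obtain ⟨c, hc⟩ := CharacterModule.exists_character_apply_ne_zero_of_ne_zero
    (A := (Γ → ℤ) ⧸ J 𝓗) (a := QuotientAddGroup.mk (const Γ k))
    (fun h1 => h ((QuotientAddGroup.eq_zero_iff _).1 h1))
  choose y hy using fun g : Γ => QuotientAddGroup.mk_surjective
    (s := AddSubgroup.zmultiples (1 : ℚ)) (c (QuotientAddGroup.mk (Pi.single g (1 : ℤ))))
  have hsum : ∀ f : Γ → ℤ, c (QuotientAddGroup.mk f) =
      ((∑ x, (f x : ℚ) * y x : ℚ) : AddCircle (1 : ℚ)) := by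
    intro f
    have h1 : f = ∑ x, f x • (Pi.single x (1 : ℤ) : Γ → ℤ) := by
      funext z
      rw [Finset.sum_apply, Finset.sum_eq_single z]
      · rw [Pi.smul_apply, Pi.single_eq_same, smul_eq_mul, mul_one]
      · intro b _ hb
        rw [Pi.smul_apply, Pi.single_eq_of_ne hb.symm, smul_zero]
      · intro hz
        exact absurd (Finset.mem_univ _) hz
    have h2 : (QuotientAddGroup.mk f : (Γ → ℤ) ⧸ J 𝓗) =
        ∑ x, f x • (QuotientAddGroup.mk (Pi.single x (1 : ℤ)) : (Γ → ℤ) ⧸ J 𝓗) := by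
      conv_lhs => rw [h1]
      exact map_sum (QuotientAddGroup.mk' (J 𝓗)) _ _
    rw [h2, map_sum]
    have h3 : ((∑ x, (f x : ℚ) * y x : ℚ) : AddCircle (1 : ℚ)) =
        ∑ x, (((f x : ℚ) * y x : ℚ) : AddCircle (1 : ℚ)) :=
      map_sum (QuotientAddGroup.mk' (AddSubgroup.zmultiples (1 : ℚ))) _ _
    rw [h3]
    refine Finset.sum_congr rfl fun x _ => ?_
    rw [map_zsmul, ← hy x, ← zsmul_eq_mul]
    rfl
  refine ⟨y, fun f hf => ?_, fun n hn => ?_⟩
  · have h1 := hsum f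
    rw [(QuotientAddGroup.eq_zero_iff f).2 hf, map_zero] at h1
    obtain ⟨n, hn⟩ := (AddCircle.coe_eq_zero_iff (1 : ℚ)).1 h1.symm
    exact ⟨n, by rw [← hn, zsmul_one]⟩
  · apply hc
    rw [hsum, Finset.sum_eq_single (1 : Γ)]
    · rw [const, if_pos rfl, hn]
      exact (AddCircle.coe_eq_zero_iff (1 : ℚ)).2 ⟨n, by rw [zsmul_one]⟩
    · intro b _ hb
      rw [const, if_neg hb, Int.cast_zero, zero_mul]
    · intro hz
      exact absurd (Finset.mem_univ _) hz

/-- an integer valued function whose sums over the cosets are divisible by `N` -/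
lemma exists_int_fun_mod [Fintype Γ] {𝓗 : Set (Subgroup Γ)} {N : ℕ} (hN0 : 0 < N)
    (hN : const Γ N ∈ J 𝓗)
    {k : ℤ} (h : const Γ k ∉ J 𝓗) :
    ∃ z : Γ → ℤ, (∀ H ∈ 𝓗, ∀ g : Γ, ∃ n : ℤ, ∑ᶠ c : H, z (g * c) = N * n) ∧
      ∀ n : ℤ, k * z 1 ≠ N * n := by
  classical
  obtain ⟨y, hy, hyk⟩ := exists_rat_fun h
  have h1 : ∀ g, ∃ z : ℤ, (z : ℚ) = N * y g := by
    intro g
    obtain ⟨n, hn⟩ := hy _ (single_mem hN g)
    rw [Finset.sum_eq_single g] at hn
    · rw [if_pos rfl] at hn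
      exact ⟨n, by rw [← hn]; push_cast; rfl⟩
    · intro b _ hb
      rw [if_neg hb, Int.cast_zero, zero_mul]
    · intro hz
      exact absurd (Finset.mem_univ _) hz
  choose z hz using h1
  have hN' : (N : ℚ) ≠ 0 := by exact_mod_cast hN0.ne'
  refine ⟨z, fun H hH g => ?_, fun n hn => ?_⟩
  · obtain ⟨n, hn⟩ := hy _ (AddSubgroup.subset_closure ⟨g, H, hH, rfl⟩)
    refine ⟨n, ?_⟩
    rw [finsum_eq_sum_of_fintype]
    have h3 : ∑ x, ((coset g H x : ℤ) : ℚ) * y x = ∑ c : H, y (g * c) := by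
      rw [← Equiv.sum_comp (Equiv.mulLeft g)]
      have h4 : ∀ x : Γ, ((coset g H ((Equiv.mulLeft g) x) : ℤ) : ℚ) * y ((Equiv.mulLeft g) x) =
          if x ∈ H then y (g * x) else 0 := by
        intro x
        rw [Equiv.coe_mulLeft, coset, inv_mul_cancel_left]
        split_ifs <;> simp
      rw [Finset.sum_congr rfl fun x _ => h4 x, ← Finset.sum_filter]
      exact Finset.sum_subtype _ (fun x => by rw [Finset.mem_filter]; simp) _
    rw [h3] at hn
    have h4 : ((∑ c : H, z (g * c) : ℤ) : ℚ) = ((N * n : ℤ) : ℚ) := by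
      push_cast
      rw [Finset.sum_congr rfl fun (c : H) _ => hz (g * (c : Γ)), ← Finset.mul_sum, hn]
    exact_mod_cast h4
  · apply hyk n
    have h2 : ((k * z 1 : ℤ) : ℚ) = ((N * n : ℤ) : ℚ) := by rw [hn]
    push_cast at h2
    rw [hz 1] at h2
    have h3 : (N : ℚ) * (k * y 1) = N * n := by rw [← h2]; ring
    exact mul_left_cancel₀ hN' h3

end group

variable {E : Type} [Field E] [NumberField E] [IsGalois ℚ E]

/-- If a positive integer `N`, but not `k`, lies in the ideal, some `r` has rational norms but its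
`k`-th power is not rational. -/
theorem exists_bad_mod {𝒦 : Set (IntermediateField ℚ E)} {N : ℕ} (hN0 : 0 < N)
    (hN : const (E ≃ₐ[ℚ] E) N ∈ J (gals 𝒦)) {k : ℕ} (hk : const (E ≃ₐ[ℚ] E) k ∉ J (gals 𝒦)) :
    ∃ r : (E →+* ℂ) → ℂ, (∀ τ, r τ ≠ 0) ∧ (∀ K ∈ 𝒦, NormRat K r) ∧
      ¬ IsRat fun τ => r τ ^ k := by
  classical
  obtain ⟨z, hz, hzk⟩ := exists_int_fun_mod hN0 hN hk
  obtain ⟨ν, π, hν, hπ0, hν1, hνg⟩ := exists_val (E := E)
  obtain ⟨τ₀⟩ : Nonempty (E →+* ℂ) := inferInstance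
  have hroot : ∀ x : E ≃ₐ[ℚ] E, ∃ ρ : ℂ, ρ ^ N = τ₀ (x π) := fun x =>
    IsAlgClosed.exists_pow_nat_eq _ hN0
  choose ρ hρ using hroot
  have hπx : ∀ x : E ≃ₐ[ℚ] E, x π ≠ 0 := fun x => (_root_.map_ne_zero x).2 hπ0
  have hρ0 : ∀ x, ρ x ≠ 0 := fun x h => by
    have h1 := hρ x
    rw [h, zero_pow hN0.ne'] at h1
    exact (_root_.map_ne_zero τ₀).2 (hπx x) h1.symm
  have hf0 : ∀ g : E ≃ₐ[ℚ] E, ∏ x, ρ x ^ z (x⁻¹ * g) ≠ 0 := fun g =>
    Finset.prod_ne_zero_iff.2 fun x _ => zpow_ne_zero _ (hρ0 x)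
  refine ⟨ofFun τ₀ fun g => ∏ x, ρ x ^ z (x⁻¹ * g), fun τ => hf0 _, ?_, ?_⟩
  · intro K hK
    have hK' : K.fixingSubgroup ∈ gals 𝒦 := ⟨K, hK, rfl⟩
    have hz' := hz _ hK'
    clear hK'
    revert hz'
    obtain ⟨H, rfl⟩ : ∃ H : Subgroup (E ≃ₐ[ℚ] E), K = IntermediateField.fixedField H :=
      ⟨K.fixingSubgroup, (IsGalois.fixedField_fixingSubgroup K).symm⟩
    rw [IntermediateField.fixingSubgroup_fixedField]
    intro hz'
    choose c hc using hz'
    refine normRat_of_le (le_refl H) (e := ∏ y : E ≃ₐ[ℚ] E, (y π) ^ c y⁻¹) fun τ => ?_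
    obtain ⟨g, rfl⟩ := (embEquiv τ₀).surjective τ
    rw [nm, ← Finset.prod_filter]
    change ∏ a ∈ _, ofFun τ₀ _ (cmp (cmp τ₀ g) a) = τ₀ (g _)
    simp_rw [← cmp_mul, ofFun_cmp]
    have h1 : ∏ a ∈ Finset.univ.filter (fun a : E ≃ₐ[ℚ] E => a ∈ H),
        ∏ x, ρ x ^ z (x⁻¹ * (g * a)) = ∏ a : H, ∏ x, ρ x ^ z (x⁻¹ * (g * a)) :=
      Finset.prod_subtype _ (fun c => by rw [Finset.mem_filter]; simp)
        (fun a : E ≃ₐ[ℚ] E => ∏ x, ρ x ^ z (x⁻¹ * (g * a)))
    rw [h1, Finset.prod_comm, map_prod, map_prod, ← Equiv.prod_comp (Equiv.mulLeft g)]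
    refine Finset.prod_congr rfl fun y _ => ?_
    rw [Equiv.coe_mulLeft, map_zpow₀, map_zpow₀]
    have h2 : τ₀ (g (y π)) = ρ (g * y) ^ N := (hρ (g * y)).symm
    rw [h2, ← zpow_natCast, ← zpow_mul]
    have h3 := hc y⁻¹
    rw [finsum_eq_sum_of_fintype] at h3
    rw [← h3]
    have h4 : ∀ s : Finset H, ∏ a ∈ s, ρ (g * y) ^ z ((g * y)⁻¹ * (g * a)) =
        ρ (g * y) ^ (∑ a ∈ s, z (y⁻¹ * a)) := by
      intro s
      induction s using Finset.induction_on with
      | empty => simp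
      | insert a s ha ih =>
        rw [Finset.prod_insert ha, Finset.sum_insert ha, ih, zpow_add₀ (hρ0 _)]
        congr 3
        group
    exact h4 _
  · rintro ⟨e, he⟩
    have h1 := he (cmp τ₀ 1)
    beta_reduce at h1
    rw [ofFun_cmp] at h1
    have h2 : τ₀ (∏ x : E ≃ₐ[ℚ] E, (x π) ^ (z x⁻¹ * k)) = τ₀ (e ^ N) := by
      have h3 : cmp τ₀ 1 e = τ₀ e := rfl
      rw [map_pow, ← h3, ← h1, ← pow_mul, mul_comm k N, pow_mul, ← Finset.prod_pow,
        ← Finset.prod_pow, map_prod]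
      refine Finset.prod_congr rfl fun x _ => ?_
      rw [map_zpow₀, ← hρ x, mul_one, ← zpow_natCast, ← zpow_natCast, ← zpow_natCast, ← zpow_mul,
        ← zpow_mul, ← zpow_mul]
      congr 1
      ring
    have h3 := τ₀.injective h2
    have he0 : e ≠ 0 := by
      rintro rfl
      rw [map_zero] at h1
      exact pow_ne_zero k (hf0 1) h1
    -- the valuation of powers and products
    have hν_one : ν 1 = 0 := by
      have := hν 1 1 one_ne_zero one_ne_zero
      rw [mul_one] at this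
      linarith
    have hν_pow : ∀ (x : E), x ≠ 0 → ∀ n : ℕ, ν (x ^ n) = n * ν x := by
      intro x hx n
      induction n with
      | zero => rw [pow_zero, hν_one, Nat.cast_zero, zero_mul]
      | succ n ih =>
        rw [pow_succ, hν _ _ (pow_ne_zero n hx) hx, ih]
        push_cast
        ring
    have hν_zpow : ∀ (x : E), x ≠ 0 → ∀ n : ℤ, ν (x ^ n) = n * ν x := by
      intro x hx n
      obtain ⟨m, rfl | rfl⟩ := n.eq_nat_or_neg
      · rw [zpow_natCast, hν_pow x hx]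
      · have h4 := hν (x ^ (-(m : ℤ))) (x ^ m) (zpow_ne_zero _ hx) (pow_ne_zero _ hx)
        rw [← zpow_natCast, ← zpow_add₀ hx, neg_add_cancel, zpow_zero, hν_one, zpow_natCast,
          hν_pow x hx] at h4
        linarith
    have hν_prod : ∀ (s : Finset (E ≃ₐ[ℚ] E)), ν (∏ x ∈ s, (x π) ^ (z x⁻¹ * k)) =
        ∑ x ∈ s, (z x⁻¹ * k) * ν (x π) := by
      intro s
      induction s using Finset.induction_on with
      | empty => rw [Finset.prod_empty, Finset.sum_empty, hν_one]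
      | insert a s ha ih =>
        rw [Finset.prod_insert ha, Finset.sum_insert ha,
          hν _ _ (zpow_ne_zero _ (hπx a)) (Finset.prod_ne_zero_iff.2 fun x _ =>
            zpow_ne_zero _ (hπx x)), ih, hν_zpow _ (hπx a)]
    have h4 := hν_prod Finset.univ
    rw [h3, hν_pow e he0, Finset.sum_eq_single (1 : E ≃ₐ[ℚ] E)] at h4
    · have h5 : ν ((1 : E ≃ₐ[ℚ] E) π) = 1 := hν1
      rw [h5, inv_one, mul_one] at h4
      apply hzk (ν e)
      rw [h4]
      ring
    · intro x _ hx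
      rw [hνg x hx, mul_zero]
    · intro h
      exact absurd (Finset.mem_univ _) h

/-- The exponents that work for `𝒦` are the integers in the ideal. -/
theorem exponent_iff_mem {𝒦 : Set (IntermediateField ℚ E)} (hne : 𝒦.Nonempty) (k : ℕ) :
    Exponent 𝒦 k ↔ const (E ≃ₐ[ℚ] E) k ∈ J (gals 𝒦) := by
  refine ⟨fun h => ?_, fun h r h0 hr => isRat_pow h0 hr h⟩
  by_contra hk
  have hk0 : 0 < k := by
    rcases Nat.eq_zero_or_pos k with rfl | h1
    · exfalso
      apply hk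
      have h2 : const (E ≃ₐ[ℚ] E) ((0 : ℕ) : ℤ) = 0 := by
        funext x
        rw [const]
        simp
      rw [h2]
      exact zero_mem _
    · exact h1
  by_cases hN : ∃ N : ℕ, 0 < N ∧ const (E ≃ₐ[ℚ] E) N ∈ J (gals 𝒦)
  · obtain ⟨N, hN0, hN⟩ := hN
    obtain ⟨r, h0, hr, hbad⟩ := exists_bad_mod hN0 hN hk
    exact hbad (h r h0 hr)
  · push Not at hN
    obtain ⟨r, h0, hr, hbad⟩ := exists_bad hne hN
    exact hbad k hk0 (h r h0 fun K hK => ⟨1, fun σ => by rw [hr K hK σ, map_one]⟩)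

end Pool.Agent.H504.RV
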