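import Pool.Agent.H504.RV.Defs
import Pool.Agent.H504.RV.Rel

/-!
# The statement on ratios for a motive from its restrictions of coefficients
-/

set_option autoImplicit false
set_option linter.unusedSectionVars false

namespace Pool.Agent.H504.RV

open Polynomial NumberField IsDedekindDomain Pool.Agent.H504.CF

lemma isDelta_ne_zero {F : Type} [Field F] [NumberField F] {δ : ℂ} (h : IsDelta F δ) : δ ≠ 0 := by
  rcases h with ⟨x, D, ε, ⟨-, hD⟩, hε, rfl⟩ | ⟨-, rfl⟩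
  · refine pow_ne_zero _ fun h0 => ?_
    rw [h0, zero_pow two_ne_zero] at hε
    have h1 : Algebra.norm ℚ D = 0 := by exact_mod_cast hε.symm
    rw [Algebra.norm_eq_zero_iff] at h1
    obtain ⟨φ⟩ : Nonempty (maximalRealSubfield F →+* ℂ) := inferInstance
    obtain ⟨r, hr, h2⟩ := hD φ
    rw [h1, map_zero] at h2
    have h3 : r = 0 := by exact_mod_cast h2.symm
    exact hr.ne h3
  · exact one_ne_zero

namespace Motive

variable {F E : Type} [Field F] [NumberField F] [Field E] [NumberField E] (M : Motive F E)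

lemma prod_self (τ : E →+* ℂ) (g : (E →+* ℂ) → ℂ) :
    ∏ t : Above (E := E) E τ, g t.1 = g τ := by
  rw [Fintype.prod_eq_single (⟨τ, RingHom.ext fun x => rfl⟩ : Above (E := E) E τ)]
  rintro ⟨t, ht⟩ hne
  exact absurd (Subtype.ext (show t = τ from ht)) hne

/-- The L-values of `Res_{E/K} M` are the norms of those of `M`. -/
theorem isLValue_res (K : Type) [Field K] [NumberField K] [Algebra K E] {m : ℤ}
    {v : (E →+* ℂ) → ℂ} (h : ∀ τ, M.IsLValue E τ m (v τ))
    (σ : K →+* ℂ) : M.IsLValue K σ m (∏ τ : Above (E := E) K σ, v τ.1) := by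
  choose f g b h2 h3 h3' h4 h5 using h
  have : Nonempty (Above (E := E) K σ) := by
    rw [← Fintype.card_pos_iff, card_above]
    exact Module.finrank_pos
  refine ⟨fun s => ∏ τ : Above (E := E) K σ, f τ.1 s, fun s => ∏ τ : Above (E := E) K σ, g τ.1 s,
    Finset.univ.sup' Finset.univ_nonempty
    (fun τ : Above (E := E) K σ => b τ.1), ?_, ?_, ?_, ?_, ?_⟩
  · exact MeromorphicOn.fun_prod fun τ _ => h2 τ.1
  · intro s hs
    rw [Finset.sup'_lt_iff] at hs
    refine hasProd_prod fun τ _ => ?_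
    have h6 := h3 τ.1 s (hs τ (Finset.mem_univ τ))
    have h7 : (fun p : HeightOneSpectrum (𝓞 F) => ∏ t : Above (E := E) E τ.1,
        (((M.P p).map t.1).eval ((Ideal.absNorm p.asIdeal : ℂ) ^ (-s)))⁻¹) =
        fun p : HeightOneSpectrum (𝓞 F) =>
          (((M.P p).map τ.1).eval ((Ideal.absNorm p.asIdeal : ℂ) ^ (-s)))⁻¹ := by
      funext p
      exact prod_self τ.1 (fun t =>
        (((M.P p).map t).eval ((Ideal.absNorm p.asIdeal : ℂ) ^ (-s)))⁻¹)
    rw [h7] at h6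
    exact h6
  · intro s hs
    rw [Finset.sup'_lt_iff] at hs
    beta_reduce
    rw [Finset.prod_congr rfl fun τ _ => h3' τ.1 s (hs τ (Finset.mem_univ τ)),
      Finset.prod_mul_distrib, Finset.prod_const, Finset.card_univ, card_above,
      Module.finrank_self, pow_one]
  · exact Finset.analyticAt_fun_prod _ fun τ _ => h4 τ.1
  · exact Finset.prod_congr rfl fun τ _ => h5 τ.1

variable {δ : ℂ} {m : ℤ}

/-- the expected value `i ^ {d / 2} Δ` -/
noncomputable def base (F : Type) [Field F] [NumberField F] (δ : ℂ) : ℂ :=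
  Complex.I ^ (Module.finrank ℚ F / 2) * δ

lemma base_ne_zero (hδ : δ ≠ 0) : base F δ ≠ 0 := mul_ne_zero (pow_ne_zero _ Complex.I_ne_zero) hδ

/-- the defect of `M` has rational norms -/
theorem normRat_of_ratio {K : IntermediateField ℚ E} (hδ : δ ≠ 0)
    (hK : M.Ratio K δ m) (hm : M.Critical m) (hm' : M.Critical (m + 1))
    {u v : (E →+* ℂ) → ℂ} (hu : ∀ τ, M.IsLValue E τ m (u τ))
    (hv : ∀ τ, M.IsLValue E τ (m + 1) (v τ)) (hv0 : ∀ τ, v τ ≠ 0) :
    (∀ τ, u τ ≠ 0) ∧ NormRat K (fun τ => u τ / v τ / base F δ ^ M.n) := by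
  have h0 : ∀ σ : K →+* ℂ, ∏ τ : Above (E := E) K σ, v τ.1 ≠ 0 := fun σ =>
    Finset.prod_ne_zero_iff.2 fun τ _ => hv0 τ.1
  obtain ⟨e, he0, he⟩ := hK hm hm' _ _ (M.isLValue_res K hu) (M.isLValue_res K hv) h0
  have hb : base F δ ≠ 0 := base_ne_zero hδ
  constructor
  · intro τ hτ
    have h1 := he (τ.comp (algebraMap K E))
    rw [Finset.prod_eq_zero (i := (⟨τ, rfl⟩ : Above (E := E) K (τ.comp (algebraMap K E))))
      (Finset.mem_univ _) hτ, zero_div] at h1
    exact mul_ne_zero ((_root_.map_ne_zero _).2 he0) (pow_ne_zero _ hb) h1.symm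
  · refine ⟨e, fun σ => ?_⟩
    rw [Finset.prod_div_distrib, Finset.prod_div_distrib, he σ, Finset.prod_const,
      Finset.card_univ, card_above, ← pow_mul]
    exact mul_div_cancel_right₀ _ (pow_ne_zero _ hb)

/-- Q1 for `M` up to the `k`-th power, from Q1 for the restrictions `Res_{E/K} M`, `K ∈ 𝒦` -/
theorem ratioPow_of_mem [IsGalois ℚ E] (hδ : IsDelta F δ) {𝒦 : Set (IntermediateField ℚ E)}
    (hne : 𝒦.Nonempty) (h : ∀ K ∈ 𝒦, M.Ratio K δ m) {k : ℕ}
    (hk : const (E ≃ₐ[ℚ] E) k ∈ J (gals 𝒦)) : M.RatioPow E δ m k := by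
  intro hm hm' u v hu hv hv0
  have hδ0 := isDelta_ne_zero hδ
  have hb : base F δ ≠ 0 := base_ne_zero hδ0
  obtain ⟨K₀, hK₀⟩ := hne
  have hu0 := (M.normRat_of_ratio hδ0 (h K₀ hK₀) hm hm' hu hv hv0).1
  have h0 : ∀ τ, u τ / v τ / base F δ ^ M.n ≠ 0 := fun τ =>
    div_ne_zero (div_ne_zero (hu0 τ) (hv0 τ)) (pow_ne_zero _ hb)
  obtain ⟨e, he⟩ := isRat_pow h0
    (fun K hK => (M.normRat_of_ratio hδ0 (h K hK) hm hm' hu hv hv0).2) hk
  refine ⟨e, ?_, fun σ => ?_⟩
  · rintro rfl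
    obtain ⟨τ⟩ : Nonempty (E →+* ℂ) := inferInstance
    have h1 := he τ
    rw [map_zero] at h1
    exact pow_ne_zero k (h0 τ) h1
  · have h1 := he σ
    beta_reduce at h1
    rw [← h1, Module.finrank_self, mul_one, ← mul_pow]
    congr 1
    exact (div_mul_cancel₀ _ (pow_ne_zero _ hb)).symm

theorem ratio_of_mem [IsGalois ℚ E] (hδ : IsDelta F δ) {𝒦 : Set (IntermediateField ℚ E)}
    (hne : 𝒦.Nonempty) (h : ∀ K ∈ 𝒦, M.Ratio K δ m)
    (hk : const (E ≃ₐ[ℚ] E) 1 ∈ J (gals 𝒦)) : M.Ratio E δ m := by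
  intro hm hm' u v hu hv hv0
  obtain ⟨e, he, h1⟩ := M.ratioPow_of_mem hδ hne h (k := 1) (by exact_mod_cast hk) hm hm' u v hu
    hv hv0
  refine ⟨e, he, fun σ => ?_⟩
  have h2 := h1 σ
  rwa [pow_one, pow_one] at h2

end Motive

end Pool.Agent.H504.RV
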